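import Mathlib

set_option autoImplicit false

namespace Pool.Agent.H6.SB

open scoped Classical

/-- Sidon set without non-trivial solutions of `x + y + z = 3 b`. -/
def Good (A : Set ℕ) : Prop :=
  (∀ x ∈ A, ∀ y ∈ A, ∀ z ∈ A, ∀ w ∈ A, x + y = z + w → x = z ∨ x = w) ∧
  (∀ x ∈ A, ∀ y ∈ A, ∀ z ∈ A, ∀ b ∈ A, x + y + z = 3 * b → x = b ∨ y = b ∨ z = b)

/-- `n` is a sum of at most `k` elements of `A`. -/
def Rep (A : Set ℕ) (k n : ℕ) : Prop :=
  ∃ s : Multiset ℕ, s.card ≤ k ∧ (∀ x ∈ s, x ∈ A) ∧ s.sum = n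

lemma Good.mono {A B : Set ℕ} (h : A ⊆ B) (hB : Good B) : Good A :=
  ⟨fun x hx y hy z hz w hw => hB.1 x (h hx) y (h hy) z (h hz) w (h hw),
    fun x hx y hy z hz w hw => hB.2 x (h hx) y (h hy) z (h hz) w (h hw)⟩

/-- In a good set `x + y + z = 3 b` forces all summands to be `b`. -/
lemma Good.all_eq {A : Set ℕ} (hA : Good A) {x y z b : ℕ} (hx : x ∈ A) (hy : y ∈ A) (hz : z ∈ A)
    (hb : b ∈ A) (h : x + y + z = 3 * b) : x = b ∧ y = b ∧ z = b := by
  rcases hA.2 x hx y hy z hz b hb h with h1 | h1 | h1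
  · have h2 : y + z = b + b := by omega
    rcases hA.1 y hy z hz b hb b hb h2 with h3 | h3 <;> refine ⟨?_, ?_, ?_⟩ <;> omega
  · have h2 : x + z = b + b := by omega
    rcases hA.1 x hx z hz b hb b hb h2 with h3 | h3 <;> refine ⟨?_, ?_, ?_⟩ <;> omega
  · have h2 : x + y = b + b := by omega
    rcases hA.1 x hx y hy b hb b hb h2 with h3 | h3 <;> refine ⟨?_, ?_, ?_⟩ <;> omega

/-- Lifting lemma. -/
lemma Good.lift {A J : Set ℕ} {V X : ℕ} {v : ℕ → ℕ} (hA : Good A) (hAX : ∀ x ∈ A, x ≤ X)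
    (hJ : Good J) (h0 : 0 ∈ J) (hv : ∀ u ∈ J, u ≠ 0 → v u ≤ X) (hV : 3 * X < V) :
    Good (A ∪ {x | ∃ u ∈ J, u ≠ 0 ∧ x = V * u + v u}) := by
  -- every element is `V * u + f`
  have key : ∀ x ∈ A ∪ {x | ∃ u ∈ J, u ≠ 0 ∧ x = V * u + v u}, ∃ u ∈ J, ∃ f : ℕ, f ≤ X ∧
      x = V * u + f ∧ (u = 0 → x ∈ A ∧ f = x) ∧ (u ≠ 0 → f = v u) := by
    rintro x (hx | ⟨u, hu, hu0, rfl⟩)
    · exact ⟨0, h0, x, hAX x hx, by simp, fun _ => ⟨hx, rfl⟩, fun h => absurd rfl h⟩
    · exact ⟨u, hu, v u, hv u hu hu0, rfl, fun h => absurd h hu0, fun _ => rfl⟩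
  -- comparison of coarse parts
  have coarse : ∀ (p q f g : ℕ), V * p + f = V * q + g → f ≤ 3 * X → g ≤ 3 * X → p = q ∧ f = g := by
    intro p q f g h hf hg
    rcases lt_trichotomy p q with hpq | hpq | hpq
    · exfalso
      have : V * (p + 1) ≤ V * q := Nat.mul_le_mul_left V hpq
      rw [Nat.mul_add, Nat.mul_one] at this
      omega
    · subst hpq
      exact ⟨rfl, by omega⟩
    · exfalso
      have : V * (q + 1) ≤ V * p := Nat.mul_le_mul_left V hpq
      rw [Nat.mul_add, Nat.mul_one] at this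
      omega
  constructor
  · intro x hx y hy z hz w hw hxy
    obtain ⟨u₁, hu₁, f₁, hf₁, hx1, hx2, hx3⟩ := key x hx
    obtain ⟨u₂, hu₂, f₂, hf₂, hy1, hy2, hy3⟩ := key y hy
    obtain ⟨u₃, hu₃, f₃, hf₃, hz1, hz2, hz3⟩ := key z hz
    obtain ⟨u₄, hu₄, f₄, hf₄, hw1, hw2, hw3⟩ := key w hw
    have hsum : V * (u₁ + u₂) + (f₁ + f₂) = V * (u₃ + u₄) + (f₃ + f₄) := by
      rw [Nat.mul_add, Nat.mul_add]; omega
    obtain ⟨hu, hf⟩ := coarse _ _ _ _ hsum (by omega) (by omega)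
    -- equal coarse part gives equal element
    have same : ∀ (p q : ℕ) (a c f g : ℕ), a = V * p + f → c = V * q + g → (p = 0 → a ∈ A ∧ f = a) →
        (p ≠ 0 → f = v p) → (q ≠ 0 → g = v q) → p = q → p ≠ 0 → a = c := by
      intro p q a c f g ha hc _ h2 h4 hpq hp
      subst hpq
      rw [ha, hc, h2 hp, h4 hp]
    rcases hJ.1 u₁ hu₁ u₂ hu₂ u₃ hu₃ u₄ hu₄ hu with h13 | h14
    · have h24 : u₂ = u₄ := by omega
      by_cases h1 : u₁ = 0
      · by_cases h2 : u₂ = 0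
        · have hz := (hz2 (by omega)).1
          have hw := (hw2 (by omega)).1
          exact hA.1 x (hx2 h1).1 y (hy2 h2).1 z hz w hw hxy
        · have := same u₂ u₄ y w f₂ f₄ hy1 hw1 hy2 hy3 hw3 h24 h2
          left; omega
      · left
        exact same u₁ u₃ x z f₁ f₃ hx1 hz1 hx2 hx3 hz3 h13 h1
    · have h23 : u₂ = u₃ := by omega
      by_cases h1 : u₁ = 0
      · by_cases h2 : u₂ = 0
        · have hz := (hz2 (by omega)).1
          have hw := (hw2 (by omega)).1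
          exact hA.1 x (hx2 h1).1 y (hy2 h2).1 z hz w hw hxy
        · have := same u₂ u₃ y z f₂ f₃ hy1 hz1 hy2 hy3 hz3 h23 h2
          right; omega
      · right
        exact same u₁ u₄ x w f₁ f₄ hx1 hw1 hx2 hx3 hw3 h14 h1
  · intro x hx y hy z hz b hb hxy
    obtain ⟨u₁, hu₁, f₁, hf₁, hx1, hx2, hx3⟩ := key x hx
    obtain ⟨u₂, hu₂, f₂, hf₂, hy1, hy2, hy3⟩ := key y hy
    obtain ⟨u₃, hu₃, f₃, hf₃, hz1, hz2, hz3⟩ := key z hz
    obtain ⟨u₄, hu₄, f₄, hf₄, hw1, hw2, hw3⟩ := key b hb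
    have hsum : V * (u₁ + u₂ + u₃) + (f₁ + f₂ + f₃) = V * (3 * u₄) + (3 * f₄) := by
      have : V * (3 * u₄) = 3 * (V * u₄) := by ring
      rw [Nat.mul_add, Nat.mul_add]; omega
    obtain ⟨hu, hf⟩ := coarse _ _ _ _ hsum (by omega) (by omega)
    obtain ⟨h1, h2, h3⟩ := hJ.all_eq hu₁ hu₂ hu₃ hu₄ hu
    by_cases h4 : u₄ = 0
    · exact hA.2 x (hx2 (by omega)).1 y (hy2 (by omega)).1 z (hz2 (by omega)).1 b (hw2 h4).1 hxy
    · left
      rw [hx1, hw1, hx3 (by omega), hw3 h4, h1]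

lemma good_zero : Good {0} := by
  constructor
  · intro x hx y hy z hz w hw _
    simp only [Set.mem_singleton_iff] at hx hz
    left; omega
  · intro x hx y hy z hz w hw _
    simp only [Set.mem_singleton_iff] at hx hw
    left; omega

lemma good_zero_one : Good {0, 1} := by
  constructor
  · intro x hx y hy z hz w hw h
    simp only [Set.mem_insert_iff, Set.mem_singleton_iff] at hx hy hz hw
    omega
  · intro x hx y hy z hz w hw h
    simp only [Set.mem_insert_iff, Set.mem_singleton_iff] at hx hy hz hw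
    omega

/-- Adding one element that is more than three times as large as all others. -/
lemma Good.insert_big {A : Set ℕ} {X f : ℕ} (hA : Good A) (hAX : ∀ x ∈ A, x ≤ X) (hf : 3 * X < f) :
    Good (insert f A) := by
  refine (hA.lift (J := {0, 1}) (V := f) (v := fun _ => 0) hAX good_zero_one (by simp)
    (by intros; exact Nat.zero_le _) hf).mono ?_
  rintro x (rfl | hx)
  · right
    exact ⟨1, by simp, one_ne_zero, by simp⟩
  · exact Or.inl hx

/-! ### Representations -/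

lemma Rep.mono {A B : Set ℕ} {k l n : ℕ} (h : Rep A k n) (hAB : A ⊆ B) (hkl : k ≤ l) :
    Rep B l n := by
  obtain ⟨s, hs, hsA, hsum⟩ := h
  exact ⟨s, hs.trans hkl, fun x hx => hAB (hsA x hx), hsum⟩

lemma Rep.card_le {A : Set ℕ} {k l n : ℕ} (h : Rep A k n) (hkl : k ≤ l) : Rep A l n :=
  h.mono subset_rfl hkl

lemma rep_zero (A : Set ℕ) (k : ℕ) : Rep A k 0 := ⟨0, by simp, by simp, by simp⟩

lemma Rep.add {A : Set ℕ} {k l m n : ℕ} (h₁ : Rep A k m) (h₂ : Rep A l n) :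
    Rep A (k + l) (m + n) := by
  obtain ⟨s, hs, hsA, hsum⟩ := h₁
  obtain ⟨t, ht, htA, htsum⟩ := h₂
  refine ⟨s + t, by rw [Multiset.card_add]; omega, ?_, by rw [Multiset.sum_add, hsum, htsum]⟩
  intro x hx
  rcases Multiset.mem_add.1 hx with h | h
  · exact hsA x h
  · exact htA x h

lemma rep_mul {A : Set ℕ} {x : ℕ} (hx : x ∈ A) (m : ℕ) : Rep A m (m * x) :=
  ⟨Multiset.replicate m x, by simp, fun y hy => by rw [Multiset.eq_of_mem_replicate hy]; exact hx,
    by simp⟩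

lemma rep_one {A : Set ℕ} {x : ℕ} (hx : x ∈ A) : Rep A 1 x := by
  simpa using rep_mul hx 1

/-- Splitting a number into parts of size at most `w`. -/
lemma rep_parts {A : Set ℕ} {K w : ℕ} (h : ∀ y, y ≤ w → Rep A K y) (a : ℕ) :
    ∀ y, y ≤ a * w → Rep A (a * K) y := by
  induction a with
  | zero =>
    intro y hy
    have : y = 0 := by simpa using hy
    subst this
    exact rep_zero A _
  | succ a ih =>
    intro y hy
    rw [Nat.add_mul, Nat.one_mul] at hy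
    rw [Nat.add_mul, Nat.one_mul]
    by_cases hyw : y ≤ w
    · exact (h y hyw).card_le (by omega)
    · have h1 := ih (y - w) (by omega)
      have h2 := h w le_rfl
      have := h1.add h2
      rwa [Nat.sub_add_cancel (by omega)] at this

/-- The summands of a representation of `n` are at most `n`. -/
lemma Rep.restrict {A : Set ℕ} {k n : ℕ} (h : Rep A k n) : Rep {x ∈ A | x ≤ n} k n := by
  obtain ⟨s, hs, hsA, hsum⟩ := h
  refine ⟨s, hs, fun x hx => ⟨hsA x hx, ?_⟩, hsum⟩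
  rw [← hsum]
  exact Multiset.single_le_sum (fun _ _ => Nat.zero_le _) x hx

/-- Mapping a representation. -/
lemma Rep.map_exact {A B : Set ℕ} {k n V : ℕ} {f : ℕ → ℕ} (h : Rep A k n)
    (hf : ∀ x ∈ A, f x ∈ B ∧ f x = V * x) : Rep B k (V * n) := by
  obtain ⟨s, hs, hsA, hsum⟩ := h
  refine ⟨s.map f, by simpa using hs, ?_, ?_⟩
  · intro y hy
    obtain ⟨x, hx, rfl⟩ := Multiset.mem_map.1 hy
    exact (hf x (hsA x hx)).1
  · have h1 : s.map f = s.map (fun x => V * x) :=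
      Multiset.map_congr rfl fun x hx => (hf x (hsA x hx)).2
    rw [h1, ← hsum]
    have h2 := Multiset.sum_map_mul_left (s := s) (a := V) (f := fun x => x)
    rw [h2, Multiset.map_id']

end Pool.Agent.H6.SB
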