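import Mathlib
import Pool.Agent.H6.SB.Basic

set_option autoImplicit false

namespace Pool.Agent.H6.SB

open scoped Classical

/-- Quadratic block. -/
def Blk (Q n : ℕ) : Set ℕ := {x | ∃ a, 1 ≤ a ∧ a ≤ n ∧ x = Q * a + a ^ 2}

lemma Good.block {A : Set ℕ} {L Q g : ℕ} (hA : Good A) (hAL : ∀ x ∈ A, x ≤ L)
    (hQ : 3 * L + 12 * g ^ 2 < Q) : Good (A ∪ Blk Q (2 * g)) := by
  have hsq : ∀ a, a ≤ 2 * g → a ^ 2 ≤ 4 * g ^ 2 := by
    intro a ha
    calc a ^ 2 ≤ (2 * g) ^ 2 := Nat.pow_le_pow_left ha 2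
      _ = 4 * g ^ 2 := by ring
  -- every element is `Q * a + f`
  have key : ∀ x ∈ A ∪ Blk Q (2 * g), ∃ a f : ℕ, f ≤ L + 4 * g ^ 2 ∧ x = Q * a + f ∧ a ^ 2 ≤ f ∧
      (a = 0 → x ∈ A) ∧ (a ≠ 0 → f = a ^ 2) := by
    rintro x (hx | ⟨a, ha1, ha2, rfl⟩)
    · exact ⟨0, x, by have := hAL x hx; omega, by simp, by simp, fun _ => hx, fun h => absurd rfl h⟩
    · refine ⟨a, a ^ 2, ?_, rfl, le_rfl, fun h => absurd h (by omega), fun _ => rfl⟩
      have := hsq a ha2
      omega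
  have coarse : ∀ (p q f h : ℕ), Q * p + f = Q * q + h → f < Q → h < Q → p = q ∧ f = h := by
    intro p q f h heq hf hh
    rcases lt_trichotomy p q with hpq | hpq | hpq
    · exfalso
      have : Q * (p + 1) ≤ Q * q := Nat.mul_le_mul_left Q hpq
      rw [Nat.mul_add, Nat.mul_one] at this
      omega
    · subst hpq
      exact ⟨rfl, by omega⟩
    · exfalso
      have : Q * (q + 1) ≤ Q * p := Nat.mul_le_mul_left Q hpq
      rw [Nat.mul_add, Nat.mul_one] at this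
      omega
  constructor
  · intro x hx y hy z hz w hw hxy
    obtain ⟨a₁, f₁, hf₁, hx1, hx2, hx3, hx4⟩ := key x hx
    obtain ⟨a₂, f₂, hf₂, hy1, hy2, hy3, hy4⟩ := key y hy
    obtain ⟨a₃, f₃, hf₃, hz1, hz2, hz3, hz4⟩ := key z hz
    obtain ⟨a₄, f₄, hf₄, hw1, hw2, hw3, hw4⟩ := key w hw
    have hsum : Q * (a₁ + a₂) + (f₁ + f₂) = Q * (a₃ + a₄) + (f₃ + f₄) := by
      rw [Nat.mul_add, Nat.mul_add]; omega
    obtain ⟨ha, hf⟩ := coarse _ _ _ _ hsum (by omega) (by omega)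
    have hor : a₁ = a₃ ∨ a₁ = a₄ := by
      by_cases h1 : a₁ = 0
      · by_contra hcon
        push Not at hcon
        have h3 : f₃ = a₃ ^ 2 := hz4 (by omega)
        have h4 : f₄ = a₄ ^ 2 := hw4 (by omega)
        have h2 : f₂ = a₂ ^ 2 := hy4 (by omega)
        have h2' : a₂ = a₃ + a₄ := by omega
        have hpos : 0 < a₃ * a₄ := Nat.mul_pos (by omega) (by omega)
        rw [h2, h3, h4, h2'] at hf
        nlinarith
      · by_cases h2 : a₂ = 0
        · by_contra hcon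
          push Not at hcon
          have h3 : f₃ = a₃ ^ 2 := hz4 (by omega)
          have h4 : f₄ = a₄ ^ 2 := hw4 (by omega)
          have h1' : f₁ = a₁ ^ 2 := hx4 (by omega)
          have h2' : a₁ = a₃ + a₄ := by omega
          have hpos : 0 < a₃ * a₄ := Nat.mul_pos (by omega) (by omega)
          rw [h1', h3, h4, h2'] at hf
          nlinarith
        · have h1' : f₁ = a₁ ^ 2 := hx4 h1
          have h2' : f₂ = a₂ ^ 2 := hy4 h2
          have hpos : 0 < a₁ * a₂ := Nat.mul_pos (by omega) (by omega)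
          by_cases h3 : a₃ = 0
          · exfalso
            have h4 : a₄ = a₁ + a₂ := by omega
            rw [h4] at hw2
            rw [h1', h2'] at hf
            nlinarith
          · by_cases h4 : a₄ = 0
            · exfalso
              have h3' : a₃ = a₁ + a₂ := by omega
              rw [h3'] at hz2
              rw [h1', h2'] at hf
              nlinarith
            · have h3' := hz4 h3
              have h4' := hw4 h4
              rw [h1', h2', h3', h4'] at hf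
              zify at hf ha
              have hprod : ((a₁ : ℤ) - a₃) * ((a₁ : ℤ) - a₄) = 0 := by
                have ha2 : (a₂ : ℤ) = a₃ + a₄ - a₁ := by linarith
                rw [ha2] at hf
                nlinarith
              rcases mul_eq_zero.1 hprod with h | h
              · left; omega
              · right; omega
    have same : ∀ (p q : ℕ) (a c f h : ℕ), a = Q * p + f → c = Q * q + h →
        (p ≠ 0 → f = p ^ 2) → (q ≠ 0 → h = q ^ 2) → p = q → p ≠ 0 → a = c := by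
      intro p q a c f h ha hc h2 h4 hpq hp
      subst hpq
      rw [ha, hc, h2 hp, h4 hp]
    rcases hor with h13 | h14
    · have h24 : a₂ = a₄ := by omega
      by_cases h1 : a₁ = 0
      · by_cases h2 : a₂ = 0
        · exact hA.1 x (hx3 h1) y (hy3 h2) z (hz3 (by omega)) w (hw3 (by omega)) hxy
        · have := same a₂ a₄ y w f₂ f₄ hy1 hw1 hy4 hw4 h24 h2
          left; omega
      · left
        exact same a₁ a₃ x z f₁ f₃ hx1 hz1 hx4 hz4 h13 h1
    · have h23 : a₂ = a₃ := by omega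
      by_cases h1 : a₁ = 0
      · by_cases h2 : a₂ = 0
        · exact hA.1 x (hx3 h1) y (hy3 h2) z (hz3 (by omega)) w (hw3 (by omega)) hxy
        · have := same a₂ a₃ y z f₂ f₃ hy1 hz1 hy4 hz4 h23 h2
          right; omega
      · right
        exact same a₁ a₄ x w f₁ f₄ hx1 hw1 hx4 hw4 h14 h1
  · intro x hx y hy z hz b hb hxy
    obtain ⟨a₁, f₁, hf₁, hx1, hx2, hx3, hx4⟩ := key x hx
    obtain ⟨a₂, f₂, hf₂, hy1, hy2, hy3, hy4⟩ := key y hy
    obtain ⟨a₃, f₃, hf₃, hz1, hz2, hz3, hz4⟩ := key z hz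
    obtain ⟨a₄, f₄, hf₄, hw1, hw2, hw3, hw4⟩ := key b hb
    have hsum : Q * (a₁ + a₂ + a₃) + (f₁ + f₂ + f₃) = Q * (3 * a₄) + (3 * f₄) := by
      have : Q * (3 * a₄) = 3 * (Q * a₄) := by ring
      rw [Nat.mul_add, Nat.mul_add]; omega
    obtain ⟨ha, hf⟩ := coarse _ _ _ _ hsum (by omega) (by omega)
    by_cases h4 : a₄ = 0
    · exact hA.2 x (hx3 (by omega)) y (hy3 (by omega)) z (hz3 (by omega)) b (hw3 h4) hxy
    · left
      have h4' := hw4 h4
      have h14 : a₁ = a₄ := by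
        zify at ha hf hx2 hy2 hz2 h4' ⊢
        have h0 : ((a₁ : ℤ) - a₄) ^ 2 + ((a₂ : ℤ) - a₄) ^ 2 + ((a₃ : ℤ) - a₄) ^ 2 =
            (a₁ : ℤ) ^ 2 + (a₂ : ℤ) ^ 2 + (a₃ : ℤ) ^ 2 - 3 * (a₄ : ℤ) ^ 2 := by
          linear_combination (-2 * (a₄ : ℤ)) * ha
        have h1 : ((a₁ : ℤ) - a₄) ^ 2 + ((a₂ : ℤ) - a₄) ^ 2 + ((a₃ : ℤ) - a₄) ^ 2 ≤ 0 := by
          rw [h0]; linarith
        have h2 : ((a₁ : ℤ) - a₄) ^ 2 = 0 := by
          have := sq_nonneg ((a₁ : ℤ) - a₄)
          have := sq_nonneg ((a₂ : ℤ) - a₄)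
          have := sq_nonneg ((a₃ : ℤ) - a₄)
          linarith
        have h3 := pow_eq_zero_iff (two_ne_zero) |>.1 h2
        linarith
      rw [hx1, hw1, hx4 (by omega), h4', h14]

/-- A pair of elements symmetric about `g`. -/
lemma rep_pair {Q g x : ℕ} (hx : x < g) :
    Rep (Blk Q (2 * g - 1)) 2 (2 * (Q * g + g ^ 2) + 2 * x ^ 2) := by
  have h1 : Q * (g + x) + (g + x) ^ 2 ∈ Blk Q (2 * g - 1) := ⟨g + x, by omega, by omega, rfl⟩
  have h2 : Q * (g - x) + (g - x) ^ 2 ∈ Blk Q (2 * g - 1) := ⟨g - x, by omega, by omega, rfl⟩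
  have h3 := (rep_one h1).add (rep_one h2)
  have h4 : Q * (g + x) + (g + x) ^ 2 + (Q * (g - x) + (g - x) ^ 2) =
      2 * (Q * g + g ^ 2) + 2 * x ^ 2 := by
    obtain ⟨y, rfl⟩ : ∃ y, g = x + y := ⟨g - x, by omega⟩
    rw [show x + y - x = y by omega]
    ring
  rwa [h4] at h3

lemma rep_eight {Q g φ : ℕ} (hφ : φ < g ^ 2) :
    Rep (Blk Q (2 * g - 1)) 8 (8 * (Q * g + g ^ 2) + 2 * φ) := by
  obtain ⟨a, b, c, d, habcd⟩ := Nat.sum_four_squares φ
  have hlt : ∀ x, x ^ 2 ≤ φ → x < g := fun x hx => lt_of_pow_lt_pow_left₀ 2 (Nat.zero_le g)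
    (lt_of_le_of_lt hx hφ)
  have ha := rep_pair (Q := Q) (hlt a (by omega))
  have hb := rep_pair (Q := Q) (hlt b (by omega))
  have hc := rep_pair (Q := Q) (hlt c (by omega))
  have hd := rep_pair (Q := Q) (hlt d (by omega))
  have := ((ha.add hb).add hc).add hd
  have h4 : 2 * (Q * g + g ^ 2) + 2 * a ^ 2 + (2 * (Q * g + g ^ 2) + 2 * b ^ 2) +
      (2 * (Q * g + g ^ 2) + 2 * c ^ 2) + (2 * (Q * g + g ^ 2) + 2 * d ^ 2) =
      8 * (Q * g + g ^ 2) + 2 * φ := by
    rw [← habcd]; ring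
  rwa [h4] at this

lemma rep_groups {Q g : ℕ} (hg : 1 ≤ g) (G : ℕ) : ∀ φ, φ ≤ G * (g ^ 2 - 1) →
    Rep (Blk Q (2 * g - 1)) (8 * G) (G * (8 * (Q * g + g ^ 2)) + 2 * φ) := by
  have hg2 : 1 ≤ g ^ 2 := Nat.one_le_pow _ _ hg
  induction G with
  | zero =>
    intro φ hφ
    have : φ = 0 := by simpa using hφ
    subst this
    simpa using rep_zero _ _
  | succ G ih =>
    intro φ hφ
    rw [Nat.add_mul, Nat.one_mul] at hφ
    have hmul : (G + 1) * (8 * (Q * g + g ^ 2)) =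
      G * (8 * (Q * g + g ^ 2)) + 8 * (Q * g + g ^ 2) := by ring
    rw [hmul]
    by_cases h : φ ≤ g ^ 2 - 1
    · have h1 := ih 0 (Nat.zero_le _)
      have h2 := rep_eight (Q := Q) (g := g) (φ := φ) (by omega)
      have := h1.add h2
      rw [show 8 * G + 8 = 8 * (G + 1) by ring] at this
      convert this using 1
      ring
    · have h1 := ih (φ - (g ^ 2 - 1)) (by omega)
      have h2 := rep_eight (Q := Q) (g := g) (φ := g ^ 2 - 1) (by omega)
      have := h1.add h2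
      rw [show 8 * G + 8 = 8 * (G + 1) by ring] at this
      convert this using 1
      omega

/-- Single elements with even index approximate every number up to `2 Q + 8 g`. -/
lemma block_gap {Q g : ℕ} (hg : 2 ≤ g) (hQ : 2 ∣ Q) (t : ℕ) (ht : Q * 2 + 2 ^ 2 ≤ t) :
    ∃ i u, Rep (Blk Q (2 * g - 1)) (i + 1) u ∧ u ≤ t ∧ t < u + (2 * Q + 8 * g) ∧ 2 ∣ u ∧
      i * (Q * (2 * (g - 1)) + (2 * (g - 1)) ^ 2) ≤ t := by
  set E := Q * (2 * (g - 1)) + (2 * (g - 1)) ^ 2 with hE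
  have hEpos : 0 < E := by
    have : 0 < (2 * (g - 1)) ^ 2 := Nat.pow_pos (by omega)
    omega
  set i := (t - (Q * 2 + 2 ^ 2)) / E with hi
  set t' := t - i * E with ht'
  have hiE : i * E ≤ t - (Q * 2 + 2 ^ 2) := Nat.div_mul_le_self _ _
  have hiE' : t - (Q * 2 + 2 ^ 2) < i * E + E := by
    have := Nat.lt_div_mul_add (a := t - (Q * 2 + 2 ^ 2)) hEpos
    rw [← hi] at this
    exact this
  -- the largest admissible index
  set P : ℕ → Prop := fun a => Q * (2 * a) + (2 * a) ^ 2 ≤ t' with hP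
  have hP1 : P 1 := by
    show Q * (2 * 1) + (2 * 1) ^ 2 ≤ t'
    omega
  set a := Nat.findGreatest P (g - 1) with ha
  have ha1 : 1 ≤ a := Nat.le_findGreatest (by omega) hP1
  have hag : a ≤ g - 1 := Nat.findGreatest_le _
  have haP : P a := Nat.findGreatest_spec (P := P) (m := 1) (by omega) hP1
  have haP' : Q * (2 * a) + (2 * a) ^ 2 ≤ t' := haP
  have hgap : t' < Q * (2 * a) + (2 * a) ^ 2 + (2 * Q + 8 * g) := by
    by_cases hlast : a = g - 1
    · rw [hlast, ← hE]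
      omega
    · have hnot : ¬ P (a + 1) := Nat.findGreatest_is_greatest (P := P) (n := g - 1) (k := a + 1)
        (by omega) (by omega)
      have hnot' : t' < Q * (2 * (a + 1)) + (2 * (a + 1)) ^ 2 := by
        simpa [hP] using hnot
      have : Q * (2 * (a + 1)) + (2 * (a + 1)) ^ 2 = Q * (2 * a) + (2 * a) ^ 2 + 2 * Q + 8 * a + 4 := by
        ring
      omega
  have hmem : Q * (2 * a) + (2 * a) ^ 2 ∈ Blk Q (2 * g - 1) := ⟨2 * a, by omega, by omega, rfl⟩
  have hmemE : E ∈ Blk Q (2 * g - 1) := ⟨2 * (g - 1), by omega, by omega, rfl⟩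
  refine ⟨i, i * E + (Q * (2 * a) + (2 * a) ^ 2), (rep_mul hmemE i).add (rep_one hmem), by omega,
    by omega, ?_, by omega⟩
  obtain ⟨c, rfl⟩ := hQ
  refine Dvd.dvd.add (Dvd.dvd.mul_left ?_ _) ?_
  · rw [hE]
    exact ⟨c * (2 * (g - 1)) + 2 * (g - 1) ^ 2, by ring⟩
  · exact ⟨c * (2 * a) + 2 * a ^ 2, by ring⟩

end Pool.Agent.H6.SB
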