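import Mathlib

set_option autoImplicit false

namespace Pool.Agent.H6.SB

open Finset

/-- Symmetric set without solutions of `x + y + z = 0`. -/
def SSF {n : ℕ} (S : Finset (ZMod n)) : Prop :=
  (∀ x ∈ S, -x ∈ S) ∧ ∀ x ∈ S, ∀ y ∈ S, ∀ z ∈ S, x + y + z ≠ 0

lemma SSF.zero_notMem {n : ℕ} {S : Finset (ZMod n)} (hS : SSF S) : (0 : ZMod n) ∉ S := by
  intro h
  exact hS.2 0 h 0 h 0 h (by ring)

/-- One-element extension. -/
lemma SSF.ext {n : ℕ} {S : Finset (ZMod n)} (hS : SSF S) {x : ZMod n} (h1 : x ≠ 0)
    (h3 : 3 * x ≠ 0) (h2 : 2 * x ∉ S) (hss : ∀ y ∈ S, ∀ z ∈ S, y + z ≠ x) :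
    SSF (S ∪ {x, -x}) := by
  have h0 := hS.zero_notMem
  have hneg := hS.1
  -- membership
  have hmem : ∀ y, y ∈ S ∪ {x, -x} ↔ y ∈ S ∨ y = x ∨ y = -x := by
    intro y
    simp only [mem_union, mem_insert, mem_singleton]
  have hA : ∀ y ∈ S, ∀ z ∈ S, y + z ≠ -x := by
    intro y hy z hz h
    exact hss _ (hneg y hy) _ (hneg z hz) (by linear_combination (-1 : ZMod n) * h)
  have hB : ∀ y ∈ S, 2 * x ≠ y := fun y hy h => h2 (h ▸ hy)
  have hC : ∀ y ∈ S, 2 * x ≠ -y := fun y hy h => h2 (h ▸ hneg y hy)
  have hD : ∀ y ∈ S, y ≠ 0 := fun y hy h => h0 (h ▸ hy)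
  constructor
  · intro y hy
    rw [hmem] at hy ⊢
    rcases hy with hy | rfl | rfl
    · exact Or.inl (hneg y hy)
    · exact Or.inr (Or.inr rfl)
    · exact Or.inr (Or.inl (neg_neg _))
  · intro a ha b hb c hc h
    rw [hmem] at ha hb hc
    rcases ha with ha | rfl | rfl
    · rcases hb with hb | rfl | rfl
      · rcases hc with hc | rfl | rfl
        · exact hS.2 a ha b hb c hc h
        · exact hA a ha b hb (by linear_combination h)
        · exact hss a ha b hb (by linear_combination h)
      · rcases hc with hc | rfl | rfl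
        · exact hA a ha c hc (by linear_combination h)
        · exact hC a ha (by linear_combination h)
        · exact hD a ha (by linear_combination h)
      · rcases hc with hc | rfl | rfl
        · exact hss a ha c hc (by linear_combination h)
        · exact hD a ha (by linear_combination h)
        · exact hB a ha (by linear_combination (-1 : ZMod n) * h)
    · rcases hb with hb | rfl | rfl
      · rcases hc with hc | rfl | rfl
        · exact hA b hb c hc (by linear_combination h)
        · exact hC b hb (by linear_combination h)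
        · exact hD b hb (by linear_combination h)
      · rcases hc with hc | rfl | rfl
        · exact hC c hc (by linear_combination h)
        · exact h3 (by linear_combination h)
        · exact h1 (by linear_combination h)
      · rcases hc with hc | rfl | rfl
        · exact hD c hc (by linear_combination h)
        · exact h1 (by linear_combination h)
        · exact h1 (by linear_combination (-1 : ZMod n) * h)
    · rcases hb with hb | rfl | rfl
      · rcases hc with hc | rfl | rfl
        · exact hss b hb c hc (by linear_combination h)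
        · exact hD b hb (by linear_combination h)
        · exact hB b hb (by linear_combination (-1 : ZMod n) * h)
      · rcases hc with hc | rfl | rfl
        · exact hD c hc (by linear_combination h)
        · exact h1 (by linear_combination h)
        · exact h1 (by linear_combination (-1 : ZMod n) * h)
      · rcases hc with hc | rfl | rfl
        · exact hB c hc (by linear_combination (-1 : ZMod n) * h)
        · exact h1 (by linear_combination (-1 : ZMod n) * h)
        · exact h3 (by linear_combination (-1 : ZMod n) * h)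

section two

variable {m : ℕ}

instance : NeZero (2 ^ m) := ⟨by positivity⟩

lemma three_mul_eq_zero {x : ZMod (2 ^ m)} (h : 3 * x = 0) : x = 0 := by
  have hu : IsUnit ((3 : ℕ) : ZMod (2 ^ m)) := by
    rw [ZMod.isUnit_iff_coprime]
    exact Nat.Coprime.pow_right m (by norm_num)
  have : ((3 : ℕ) : ZMod (2 ^ m)) = 3 := by norm_num
  rw [this] at hu
  exact (hu.mul_right_eq_zero).1 h

lemma two_mul_eq_zero' {x : ZMod (2 ^ m)} (h : 2 * x = 0) : x = 0 ∨ x = 2 ^ (m - 1) := by
  rcases Nat.eq_zero_or_pos m with rfl | hm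
  · left
    have : Subsingleton (ZMod (2 ^ 0)) := by
      rw [pow_zero]; infer_instance
    exact Subsingleton.elim _ _
  · have hx : x = ((x.val : ℕ) : ZMod (2 ^ m)) := (ZMod.natCast_zmod_val x).symm
    have h1 : ((2 * x.val : ℕ) : ZMod (2 ^ m)) = 0 := by
      push_cast
      rw [← hx]
      exact h
    rw [ZMod.natCast_eq_zero_iff] at h1
    obtain ⟨c, hc⟩ := h1
    have hpow : 2 ^ m = 2 * 2 ^ (m - 1) := by
      rw [← pow_succ']
      congr 1
      omega
    have hlt : x.val < 2 ^ m := ZMod.val_lt x
    have hval : x.val = 2 ^ (m - 1) * c := by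
      have h2 : 2 ^ m * c = 2 * (2 ^ (m - 1) * c) := by rw [hpow]; ring
      have : 2 * x.val = 2 * (2 ^ (m - 1) * c) := hc.trans h2
      omega
    have hc2 : c < 2 := by
      by_contra hcon
      push Not at hcon
      have : 2 ^ (m - 1) * 2 ≤ 2 ^ (m - 1) * c := Nat.mul_le_mul_left _ hcon
      omega
    interval_cases c
    · left
      rw [hx, hval]; simp
    · right
      rw [hx, hval]; simp

lemma card_two_mul_eq_le (c : ZMod (2 ^ m)) :
    (univ.filter fun x : ZMod (2 ^ m) => 2 * x = c).card ≤ 2 := by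
  by_cases h : ∃ x₀ : ZMod (2 ^ m), 2 * x₀ = c
  · obtain ⟨x₀, hx₀⟩ := h
    have hsub : (univ.filter fun x : ZMod (2 ^ m) => 2 * x = c) ⊆ {x₀, x₀ + 2 ^ (m - 1)} := by
      intro x hx
      rw [mem_filter] at hx
      rw [mem_insert, mem_singleton]
      have : 2 * (x - x₀) = 0 := by linear_combination hx.2 - hx₀
      rcases two_mul_eq_zero' this with h | h
      · left; linear_combination h
      · right; linear_combination h
    exact (card_le_card hsub).trans (card_le_two)
  · have : (univ.filter fun x : ZMod (2 ^ m) => 2 * x = c) = ∅ := by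
      rw [filter_eq_empty_iff]
      intro x _ hx
      exact h ⟨x, hx⟩
    rw [this]; simp

lemma card_two_mul_mem_le (S : Finset (ZMod (2 ^ m))) (a : ZMod (2 ^ m)) :
    (univ.filter fun x : ZMod (2 ^ m) => 2 * x - a ∈ S).card ≤ 2 * S.card := by
  have hsub : (univ.filter fun x : ZMod (2 ^ m) => 2 * x - a ∈ S) ⊆
      S.biUnion (fun s => univ.filter fun x : ZMod (2 ^ m) => 2 * x = s + a) := by
    intro x hx
    rw [mem_filter] at hx
    rw [mem_biUnion]
    exact ⟨2 * x - a, hx.2, by rw [mem_filter]; exact ⟨mem_univ _, by ring⟩⟩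
  refine (card_le_card hsub).trans ?_
  rw [mul_comm]
  exact card_biUnion_le_card_mul _ _ _ fun s _ => card_two_mul_eq_le _

lemma card_three_mul_eq_le (c : ZMod (2 ^ m)) :
    (univ.filter fun x : ZMod (2 ^ m) => 3 * x = c).card ≤ 1 := by
  rw [card_le_one]
  intro a ha b hb
  rw [mem_filter] at ha hb
  have : 3 * (a - b) = 0 := by linear_combination ha.2 - hb.2
  have := three_mul_eq_zero this
  linear_combination this

/-- Planting step: make `ρ` a sum of two elements. -/
lemma SSF.plant {S : Finset (ZMod (2 ^ m))} (hS : SSF S) {ρ : ZMod (2 ^ m)} (hρ : 2 * ρ ∈ S)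
    (Cand : Finset (ZMod (2 ^ m))) (hC : 2 * S.card ^ 2 + 6 * S.card + 6 < Cand.card) :
    ∃ v ∈ Cand, SSF (S ∪ {v, -v} ∪ {ρ - v, -(ρ - v)}) := by
  have hneg := hS.1
  have hρS : ρ ∉ S := by
    intro h
    exact hS.2 ρ h ρ h _ (hneg _ hρ) (by ring)
  set SS : Finset (ZMod (2 ^ m)) := S.image₂ (· + ·) S with hSS
  have hSScard : SS.card ≤ S.card ^ 2 := by
    rw [pow_two]; exact card_image₂_le _ _ _
  set Bad : Finset (ZMod (2 ^ m)) :=
    (((((SS ∪ SS.image (fun y => ρ - y)) ∪ (univ.filter fun x => 2 * x - 0 ∈ S)) ∪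
    (univ.filter fun x => 2 * x - 2 * ρ ∈ S)) ∪ (univ.filter fun x => 2 * x - ρ ∈ S)) ∪
    {0, ρ, -ρ, 2 * ρ}) ∪ ((univ.filter fun x => 3 * x = ρ) ∪ (univ.filter fun x => 3 * x = 2 * ρ))
    with hBad
  have hBadcard : Bad.card ≤ 2 * S.card ^ 2 + 6 * S.card + 6 := by
    have h1 : (SS.image (fun y => ρ - y)).card ≤ S.card ^ 2 := card_image_le.trans hSScard
    have h2 := card_two_mul_mem_le S 0
    have h3 := card_two_mul_mem_le S (2 * ρ)
    have h4 := card_two_mul_mem_le S ρ
    have h5 : ({0, ρ, -ρ, 2 * ρ} : Finset (ZMod (2 ^ m))).card ≤ 4 := card_le_four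
    have h6 := card_three_mul_eq_le ρ
    have h7 := card_three_mul_eq_le (2 * ρ)
    calc Bad.card ≤ _ := card_union_le _ _
      _ ≤ (((((SS.card + (SS.image (fun y => ρ - y)).card) +
          (univ.filter fun x => 2 * x - 0 ∈ S).card) +
          (univ.filter fun x => 2 * x - 2 * ρ ∈ S).card) +
          (univ.filter fun x => 2 * x - ρ ∈ S).card) + 4) +
          ((univ.filter fun x => 3 * x = ρ).card + (univ.filter fun x => 3 * x = 2 * ρ).card) := by
        refine Nat.add_le_add ?_ (card_union_le _ _)
        refine (card_union_le _ _).trans (Nat.add_le_add ?_ h5)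
        refine (card_union_le _ _).trans (Nat.add_le_add ?_ le_rfl)
        refine (card_union_le _ _).trans (Nat.add_le_add ?_ le_rfl)
        refine (card_union_le _ _).trans (Nat.add_le_add ?_ le_rfl)
        exact card_union_le _ _
      _ ≤ 2 * S.card ^ 2 + 6 * S.card + 6 := by omega
  obtain ⟨v, hvC, hvB⟩ := exists_mem_notMem_of_card_lt_card (lt_of_le_of_lt hBadcard hC)
  refine ⟨v, hvC, ?_⟩
  simp only [hBad, mem_union, not_or, mem_insert, mem_singleton, mem_filter, mem_univ, true_and,
    mem_image] at hvB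
  obtain ⟨⟨⟨⟨⟨⟨b1, b2⟩, b3⟩, b4⟩, b5⟩, b6, b7, b8, b9⟩, b10, b11⟩ := hvB
  have hvSS : ∀ y ∈ S, ∀ z ∈ S, y + z ≠ v := by
    intro y hy z hz h
    exact b1 (h ▸ mem_image₂_of_mem hy hz)
  have huSS : ∀ y ∈ S, ∀ z ∈ S, y + z ≠ ρ - v := by
    intro y hy z hz h
    exact b2 ⟨y + z, mem_image₂_of_mem hy hz, by linear_combination (-1 : ZMod (2 ^ m)) * h⟩
  have hne : ∀ x : ZMod (2 ^ m), x ≠ 0 → 3 * x ≠ 0 := fun x hx h => hx (three_mul_eq_zero h)
  have h1 : SSF (S ∪ {v, -v}) := hS.ext b6 (hne v b6) (by simpa using b3) hvSS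
  have hu0 : ρ - v ≠ 0 := fun h => b7 (by linear_combination (-1 : ZMod (2 ^ m)) * h)
  refine h1.ext hu0 (hne _ hu0) ?_ ?_
  · simp only [mem_union, mem_insert, mem_singleton, not_or]
    refine ⟨fun h => ?_, fun h => ?_, fun h => ?_⟩
    · -- 2 (ρ - v) ∈ S
      apply b4
      have := hneg _ h
      rwa [show -(2 * (ρ - v)) = 2 * v - 2 * ρ by ring] at this
    · exact b11 (by linear_combination (-1 : ZMod (2 ^ m)) * h)
    · exact b9 (by linear_combination (-1 : ZMod (2 ^ m)) * h)
  · intro y hy z hz h
    simp only [mem_union, mem_insert, mem_singleton] at hy hz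
    rcases hy with hy | rfl | rfl
    · rcases hz with hz | rfl | rfl
      · exact huSS y hy z hz h
      · -- y + v = ρ - v
        apply b5
        have := hneg _ hy
        rwa [show -y = 2 * z - ρ by linear_combination (-1 : ZMod (2 ^ m)) * h] at this
      · -- y - v = ρ - v
        exact hρS (by rwa [show ρ = y by linear_combination (-1 : ZMod (2 ^ m)) * h])
    · rcases hz with hz | rfl | rfl
      · apply b5
        have := hneg _ hz
        rwa [show -z = 2 * y - ρ by linear_combination (-1 : ZMod (2 ^ m)) * h] at this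
      · exact b10 (by linear_combination h)
      · exact b7 (by linear_combination h)
    · rcases hz with hz | rfl | rfl
      · exact hρS (by rwa [show ρ = z by linear_combination (-1 : ZMod (2 ^ m)) * h])
      · exact b7 (by linear_combination h)
      · exact b8 (by linear_combination (-1 : ZMod (2 ^ m)) * h)

end two

end Pool.Agent.H6.SB
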