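import Mathlib
import Pool.Agent.H6.SB.SumFree

set_option autoImplicit false

namespace Pool.Agent.H6.SB

open Finset

variable {m : ℕ}

lemma SSF.plant_many (Cand : Finset (ZMod (2 ^ m))) (New : ZMod (2 ^ m) → Prop)
    {S : Finset (ZMod (2 ^ m))} (hS : SSF S) (N : ℕ) (hC : 2 * N ^ 2 + 6 * N + 6 < Cand.card)
    (P : Finset (ZMod (2 ^ m))) :
    (∀ ρ ∈ P, 2 * ρ ∈ S) →
    (∀ ρ ∈ P, ∀ v ∈ Cand, New v ∧ New (-v) ∧ New (ρ - v) ∧ New (-(ρ - v))) →
    S.card + 4 * P.card ≤ N →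
    ∃ S', S ⊆ S' ∧ SSF S' ∧ (∀ ρ ∈ P, ∃ x ∈ S', ∃ y ∈ S', x + y = ρ) ∧
      S'.card ≤ S.card + 4 * P.card ∧ ∀ x ∈ S', x ∈ S ∨ New x := by
  classical
  induction P using Finset.induction_on with
  | empty =>
    intro _ _ _
    exact ⟨S, subset_rfl, hS, by simp, by simp, fun x hx => Or.inl hx⟩
  | insert ρ P hρP ih =>
    intro h1 h2 h3
    rw [card_insert_of_notMem hρP] at h3 ⊢
    obtain ⟨S₁, hSS, hS1, hrep, hcard, hnew⟩ := ih (fun ρ hρ => h1 ρ (mem_insert_of_mem hρ))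
      (fun ρ hρ => h2 ρ (mem_insert_of_mem hρ)) (by omega)
    have hcard' : S₁.card ≤ N := by omega
    have hlt : 2 * S₁.card ^ 2 + 6 * S₁.card + 6 < Cand.card := by
      have : S₁.card ^ 2 ≤ N ^ 2 := Nat.pow_le_pow_left hcard' 2
      omega
    obtain ⟨v, hv, hS2⟩ := hS1.plant (ρ := ρ) (hSS (h1 ρ (mem_insert_self _ _))) Cand hlt
    refine ⟨S₁ ∪ {v, -v} ∪ {ρ - v, -(ρ - v)}, ?_, hS2, ?_, ?_, ?_⟩
    · exact hSS.trans (subset_union_left.trans subset_union_left)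
    · intro σ hσ
      rcases mem_insert.1 hσ with rfl | hσ
      · exact ⟨v, by simp, σ - v, by simp, by ring⟩
      · obtain ⟨x, hx, y, hy, hxy⟩ := hrep σ hσ
        exact ⟨x, by simp [hx], y, by simp [hy], hxy⟩
    · have ha : ({v, -v} : Finset (ZMod (2 ^ m))).card ≤ 2 := card_le_two
      have hb : ({ρ - v, -(ρ - v)} : Finset (ZMod (2 ^ m))).card ≤ 2 := card_le_two
      have hc := card_union_le (S₁ ∪ {v, -v}) {ρ - v, -(ρ - v)}
      have hd := card_union_le S₁ {v, -v}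
      omega
    · have hn := h2 ρ (mem_insert_self _ _) v hv
      intro x hx
      simp only [mem_union, mem_insert, mem_singleton] at hx
      rcases hx with (hx | rfl | rfl) | rfl | rfl
      · exact hnew x hx
      · exact Or.inr hn.1
      · exact Or.inr hn.2.1
      · exact Or.inr hn.2.2.1
      · exact Or.inr hn.2.2.2

/-- Divisibility by `2 ^ v` in `ZMod (2 ^ m)`. -/
def DD (v : ℕ) (x : ZMod (2 ^ m)) : Prop := ∃ y, x = 2 ^ v * y

lemma DD.two_mul {v : ℕ} {x : ZMod (2 ^ m)} (h : DD v x) : DD (v + 1) (2 * x) := by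
  obtain ⟨y, rfl⟩ := h
  exact ⟨y, by ring⟩

lemma DD.down {v : ℕ} {x : ZMod (2 ^ m)} (h : DD (v + 1) x) : DD v x := by
  obtain ⟨y, rfl⟩ := h
  exact ⟨2 * y, by ring⟩

lemma SSF.layer {S : Finset (ZMod (2 ^ m))} (hS : SSF S) (v : ℕ) :
    ∃ R, S ⊆ R ∧ SSF R ∧ (∀ x ∈ R, x ∈ S ∨ ¬ DD v x) ∧
      ∀ ρ, ¬ DD v ρ → ρ ∈ R ∨ (∃ x ∈ R, ∃ y ∈ R, x + y = ρ) ∨ 2 * ρ ∈ S := by
  classical
  induction v with
  | zero =>
    refine ⟨S, subset_rfl, hS, fun x hx => Or.inl hx, fun ρ hρ => ?_⟩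
    exact absurd ⟨ρ, by ring⟩ hρ
  | succ v ih =>
    obtain ⟨R, hSR, hR, hR1, hR2⟩ := ih
    set F : Finset (Finset (ZMod (2 ^ m))) := univ.filter fun T =>
      R ⊆ T ∧ SSF T ∧ ∀ x ∈ T, x ∈ R ∨ (DD v x ∧ ¬ DD (v + 1) x) with hF
    have hRF : R ∈ F := by
      rw [hF, mem_filter]
      exact ⟨mem_univ _, subset_rfl, hR, fun x hx => Or.inl hx⟩
    obtain ⟨T, hTF, hTmax⟩ := F.exists_max_image card ⟨R, hRF⟩
    have hT := (mem_filter.1 hTF).2
    obtain ⟨hRT, hTssf, hTnew⟩ := hT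
    refine ⟨T, hSR.trans hRT, hTssf, ?_, ?_⟩
    · intro x hx
      rcases hTnew x hx with h | h
      · rcases hR1 x h with h1 | h1
        · exact Or.inl h1
        · exact Or.inr fun h2 => h1 h2.down
      · exact Or.inr h.2
    · intro ρ hρ
      by_cases hv : DD v ρ
      · by_contra hcon
        push Not at hcon
        obtain ⟨hc1, hc2, hc3⟩ := hcon
        have hρ0 : ρ ≠ 0 := by
          rintro rfl
          exact hρ ⟨0, by ring⟩
        have h2T : 2 * ρ ∉ T := by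
          intro h
          rcases hTnew _ h with h | h
          · rcases hR1 _ h with h | h
            · exact hc3 h
            · exact h hv.two_mul.down
          · exact h.2 hv.two_mul
        have hnew : SSF (T ∪ {ρ, -ρ}) := hTssf.ext hρ0 (fun h => hρ0 (three_mul_eq_zero h)) h2T
          (fun y hy z hz h => hc2 y hy z hz h)
        have hneg : ∀ w, DD w (-ρ) ↔ DD w ρ := by
          intro w
          constructor
          · rintro ⟨y, hy⟩
            exact ⟨-y, by linear_combination (-1 : ZMod (2 ^ m)) * hy⟩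
          · rintro ⟨y, hy⟩
            exact ⟨-y, by linear_combination (-1 : ZMod (2 ^ m)) * hy⟩
        have hmem : T ∪ {ρ, -ρ} ∈ F := by
          rw [hF, mem_filter]
          refine ⟨mem_univ _, hRT.trans subset_union_left, hnew, ?_⟩
          intro x hx
          simp only [mem_union, mem_insert, mem_singleton] at hx
          rcases hx with hx | rfl | rfl
          · exact hTnew x hx
          · exact Or.inr ⟨hv, hρ⟩
          · exact Or.inr ⟨(hneg v).2 hv, fun h => hρ ((hneg _).1 h)⟩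
        have hle := hTmax _ hmem
        have hlt : T.card < (T ∪ {ρ, -ρ}).card := by
          apply card_lt_card
          refine ⟨subset_union_left, fun h => hc1 (h (by simp))⟩
        omega
      · rcases hR2 ρ hv with h | ⟨x, hx, y, hy, hxy⟩ | h
        · exact Or.inl (hRT h)
        · exact Or.inr (Or.inl ⟨x, hRT hx, y, hRT hy, hxy⟩)
        · exact Or.inr (Or.inr h)

lemma card_residue_class (hm : 2 ≤ m) (r : ℕ) (hr : r < 4) (φ : ZMod (2 ^ m) →+* ZMod 4) :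
    2 ^ (m - 2) ≤ (univ.filter fun v : ZMod (2 ^ m) => φ v = (r : ZMod 4)).card := by
  have hpow : 2 ^ m = 4 * 2 ^ (m - 2) := by
    have : 2 ^ m = 2 ^ 2 * 2 ^ (m - 2) := by rw [← pow_add]; congr 1; omega
    simpa using this
  have h4 : (4 : ZMod 4) = 0 := by decide
  rw [← card_range (2 ^ (m - 2))]
  refine card_le_card_of_injOn (fun i => ((4 * i + r : ℕ) : ZMod (2 ^ m))) ?_ ?_
  · intro i _
    simp only [coe_filter, Set.mem_ofPred_eq, mem_univ, true_and]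
    rw [map_natCast]
    push_cast
    rw [h4]; ring
  · intro i hi j hj hij
    simp only [coe_range, Set.mem_Iio] at hi hj
    simp only at hij
    rw [ZMod.natCast_eq_natCast_iff'] at hij
    have h1 : 4 * i + r < 2 ^ m := by rw [hpow]; omega
    have h2 : 4 * j + r < 2 ^ m := by rw [hpow]; omega
    rw [Nat.mod_eq_of_lt h1, Nat.mod_eq_of_lt h2] at hij
    omega

/-- Complete symmetric sum-free sets. -/
theorem SSF.exists_complete (hm : 2 ≤ m) {S : Finset (ZMod (2 ^ m))} (hS : SSF S)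
    (hcard : 2 * (81 * S.card) ^ 2 + 6 * (81 * S.card) + 6 < 2 ^ (m - 2)) :
    ∃ R, S ⊆ R ∧ SSF R ∧ ∀ ρ, ρ ≠ 0 → ρ ∈ R ∨ ∃ x ∈ R, ∃ y ∈ R, x + y = ρ := by
  classical
  have hdvd : 4 ∣ 2 ^ m := by
    have : (4 : ℕ) = 2 ^ 2 := by norm_num
    rw [this]; exact pow_dvd_pow 2 hm
  set φ : ZMod (2 ^ m) →+* ZMod 4 := ZMod.castHom hdvd (ZMod 4) with hφ
  have hφ2 : ∀ x, φ (2 * x) = 2 * φ x := by
    intro x; rw [map_mul, map_ofNat]
  -- first round
  set P₁ : Finset (ZMod (2 ^ m)) := univ.filter fun ρ => 2 * ρ ∈ S ∧ (φ ρ = 1 ∨ φ ρ = 3) with hP₁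
  have hP₁card : P₁.card ≤ 2 * S.card := by
    refine le_trans (card_le_card ?_) (card_two_mul_mem_le S 0)
    intro x hx
    rw [mem_filter] at hx ⊢
    exact ⟨mem_univ _, by simpa using hx.2.1⟩
  set C₁ : Finset (ZMod (2 ^ m)) := univ.filter fun v => φ v = ((0 : ℕ) : ZMod 4) with hC₁
  have hC₁card : 2 ^ (m - 2) ≤ C₁.card := card_residue_class hm 0 (by norm_num) φ
  obtain ⟨S₁, hSS₁, hS₁, hrep₁, hcard₁, hnew₁⟩ := hS.plant_many C₁ (fun x => φ x ≠ 2)
    (81 * S.card) (by omega) P₁ (fun ρ hρ => (mem_filter.1 hρ).2.1) (by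
      intro ρ hρ v hv
      have h1 := (mem_filter.1 hρ).2.2
      have h2 := (mem_filter.1 hv).2
      have hd : ∀ a : ZMod 4, (a = 1 ∨ a = 3) → (a - 0 ≠ 2 ∧ -(a - 0) ≠ 2) := by decide
      have hd0 : (0 : ZMod 4) ≠ 2 ∧ -(0 : ZMod 4) ≠ 2 := by decide
      rw [Nat.cast_zero] at h2
      simp only [map_neg, map_sub, h2]
      exact ⟨hd0.1, hd0.2, (hd _ h1).1, (hd _ h1).2⟩) (by omega)
  -- second round
  set P₂ : Finset (ZMod (2 ^ m)) := univ.filter fun ρ => 2 * ρ ∈ S₁ ∧ (φ ρ = 0 ∨ φ ρ = 2) with hP₂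
  have hP₂card : P₂.card ≤ 2 * S₁.card := by
    refine le_trans (card_le_card ?_) (card_two_mul_mem_le S₁ 0)
    intro x hx
    rw [mem_filter] at hx ⊢
    exact ⟨mem_univ _, by simpa using hx.2.1⟩
  set C₂ : Finset (ZMod (2 ^ m)) := univ.filter fun v => φ v = ((1 : ℕ) : ZMod 4) with hC₂
  have hC₂card : 2 ^ (m - 2) ≤ C₂.card := card_residue_class hm 1 (by norm_num) φ
  obtain ⟨S₂, hSS₂, hS₂, hrep₂, hcard₂, hnew₂⟩ := hS₁.plant_many C₂ (fun x => φ x = 1 ∨ φ x = 3)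
    (81 * S.card) (by omega) P₂ (fun ρ hρ => (mem_filter.1 hρ).2.1) (by
      intro ρ hρ v hv
      have h1 := (mem_filter.1 hρ).2.2
      have h2 := (mem_filter.1 hv).2
      have hd : ∀ a : ZMod 4, (a = 0 ∨ a = 2) →
        ((a - 1 = 1 ∨ a - 1 = 3) ∧ (-(a - 1) = 1 ∨ -(a - 1) = 3)) := by decide
      have hd0 : ((1 : ZMod 4) = 1 ∨ (1 : ZMod 4) = 3) ∧ (-(1 : ZMod 4) = 1 ∨ -(1 : ZMod 4) = 3) := by
        decide
      rw [Nat.cast_one] at h2
      simp only [map_neg, map_sub, h2]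
      exact ⟨Or.inl trivial, hd0.2, (hd _ h1).1, (hd _ h1).2⟩) (by omega)
  -- halves are sums
  have hhalf : ∀ ρ, 2 * ρ ∈ S₂ → ∃ x ∈ S₂, ∃ y ∈ S₂, x + y = ρ := by
    intro ρ hρ
    have hall : ∀ a : ZMod 4, (a = 0 ∨ a = 2) ∨ (a = 1 ∨ a = 3) := by decide
    have heven : ∀ a : ZMod 4, ¬ (2 * a = 1 ∨ 2 * a = 3) := by decide
    have hodd : ∀ a : ZMod 4, (a = 1 ∨ a = 3) → 2 * a = 2 := by decide
    have h1 : 2 * ρ ∈ S₁ := by
      rcases hnew₂ _ hρ with h | h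
      · exact h
      · rw [hφ2] at h
        exact absurd h (heven _)
    rcases hall (φ ρ) with h | h
    · exact hrep₂ ρ (mem_filter.2 ⟨mem_univ _, h1, h⟩)
    · have h2 : 2 * ρ ∈ S := by
        rcases hnew₁ _ h1 with h' | h'
        · exact h'
        · rw [hφ2, hodd _ h] at h'
          exact absurd rfl h'
      obtain ⟨x, hx, y, hy, hxy⟩ := hrep₁ ρ (mem_filter.2 ⟨mem_univ _, h2, h⟩)
      exact ⟨x, hSS₂ hx, y, hSS₂ hy, hxy⟩
  obtain ⟨R, hSR, hR, -, hR2⟩ := hS₂.layer m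
  refine ⟨R, (hSS₁.trans hSS₂).trans hSR, hR, ?_⟩
  intro ρ hρ
  have hnD : ¬ DD m ρ := by
    rintro ⟨y, hy⟩
    apply hρ
    have h0 : (2 : ZMod (2 ^ m)) ^ m = 0 := by
      have := ZMod.natCast_self (2 ^ m)
      push_cast at this
      exact this
    rw [hy, h0, zero_mul]
  rcases hR2 ρ hnD with h | h | h
  · exact Or.inl h
  · exact Or.inr h
  · obtain ⟨x, hx, y, hy, hxy⟩ := hhalf ρ h
    exact Or.inr ⟨x, hSR hx, y, hSR hy, hxy⟩

end Pool.Agent.H6.SB
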