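import Mathlib
import Pool.Agent.H6.SB.Block

set_option autoImplicit false

namespace Pool.Agent.H6.SB

open scoped Classical

/-- One state in the construction of an exact good basis. -/
structure JState where
  S : Set ℕ
  Sa : Set ℕ
  L : ℕ
  c : ℕ
  B : ℕ
  good : Good S
  sub : Sa ⊆ S
  zero : 0 ∈ Sa
  one : 1 ∈ Sa
  le : ∀ x ∈ S, x ≤ L
  big : 4800 ≤ L
  room : c + 13 * L ≤ B
  cov1 : ∀ n, n ≤ B → Rep Sa 1500 n
  cov0 : ∀ n, c ≤ n → n ≤ B → Rep Sa 750 n

/-- The step relation. -/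
def JStep (s t : JState) : Prop :=
  s.S ⊆ t.S ∧ s.Sa ⊆ t.Sa ∧ (∀ x ∈ t.Sa, x ∉ s.Sa → s.L < x) ∧ s.L < t.L ∧
    ∃ x ∈ t.S, x ∉ t.Sa ∧ s.L < x

lemma jstep_exists (s : JState) : ∃ t, JStep s t := by
  obtain ⟨S, Sa, L, c, B, good, sub, zero, one, le, big, room, cov1, cov0⟩ := s
  set g := Nat.sqrt (L / 12) with hg
  have hg1 : g * g ≤ L / 12 := Nat.sqrt_le _
  have hg2 : L / 12 < (g + 1) * (g + 1) := Nat.lt_succ_sqrt _
  have hg3 : 12 * (g * g) ≤ L := by omega
  have hg4 : L < 12 * ((g + 1) * (g + 1)) := by omega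
  have hg20 : 20 ≤ g := by
    rw [hg, Nat.le_sqrt]
    omega
  set Q := 6 * L with hQ
  have hgood : Good (S ∪ Blk Q (2 * g)) := good.block le (by
    have : g ^ 2 = g * g := by ring
    rw [this]
    omega)
  set E := Q * (2 * (g - 1)) + (2 * (g - 1)) ^ 2 with hE
  set L' := Q * (2 * g) + (2 * g) ^ 2 with hL'
  set X := Q * g + g ^ 2 with hX
  set c' := 90 * (8 * X) + (Q * 2 + 4) + (Q + 1) with hc'
  set B' := c' + 13 * L' with hB'
  obtain ⟨h, hh⟩ : ∃ h, g = h + 1 := ⟨g - 1, by omega⟩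
  have hE' : E = Q * (2 * h) + (2 * h) ^ 2 := by rw [hE, hh, Nat.add_sub_cancel]
  have hL'E : L' ≤ 2 * E := by
    rw [hL', hE', hh]
    nlinarith [Nat.zero_le (Q * h), Nat.zero_le Q, show 19 ≤ h by omega]
  have hXE : X ≤ E := by
    rw [hX, hE', hh]
    nlinarith [Nat.zero_le (Q * h), Nat.zero_le Q, show 19 ≤ h by omega]
  have hQE : Q * 2 + 4 + (Q + 1) ≤ E := by
    rw [hE']
    nlinarith [Nat.zero_le (Q * h), Nat.zero_le Q, show 19 ≤ h by omega]
  have hEpos : 0 < E := by omega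
  have hrange : Q + 4 * g ≤ 90 * (g ^ 2 - 1) := by
    have h1 : g ^ 2 - 1 = (h + 1) ^ 2 - 1 := by rw [hh]
    have h2 : (h + 1) ^ 2 - 1 = h ^ 2 + 2 * h := by
      have : (h + 1) ^ 2 = h ^ 2 + 2 * h + 1 := by ring
      omega
    rw [h1, h2, hh, hQ]
    rw [hh] at hg4
    nlinarith [show 19 ≤ h by omega]
  have h8g : 8 * g ≤ L := by nlinarith
  -- the new coverage
  have hcov0 : ∀ n, c' ≤ n → n ≤ B' → Rep (Sa ∪ Blk Q (2 * g - 1)) 750 n := by
    intro n hn1 hn2
    have haux : ∀ t, Q * 2 + 2 ^ 2 ≤ t → t ≤ 13 * L' + (Q * 2 + 4 + (Q + 1)) → 2 ∣ t →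
        Rep (Sa ∪ Blk Q (2 * g - 1)) 749 (90 * (8 * X) + t) := by
      intro t ht1 ht2 ht3
      obtain ⟨i, u, hrep, hu1, hu2, hu3, hi⟩ := block_gap (Q := Q) (g := g) (by omega)
        ⟨3 * L, by omega⟩ t ht1
      have hi27 : i ≤ 28 := by
        have h1 : i * E ≤ 27 * E := by rw [← hE] at hi; omega
        have := Nat.le_of_mul_le_mul_right h1 hEpos
        omega
      obtain ⟨φ, hφ⟩ : ∃ φ, t - u = 2 * φ := by
        obtain ⟨p, hp⟩ := ht3
        obtain ⟨q, hq⟩ := hu3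
        exact ⟨p - q, by omega⟩
      have h1 := rep_groups (Q := Q) (g := g) (by omega) 90 φ (by omega)
      have h2 := (h1.add hrep).mono (B := Sa ∪ Blk Q (2 * g - 1)) (l := 749)
        Set.subset_union_right (by omega)
      rw [← hX] at h2
      convert h2 using 1
      omega
    rcases Nat.even_or_odd' n with ⟨p, hp | hp⟩
    · have h1 := haux (n - 90 * (8 * X)) (by omega) (by omega) ⟨p - 45 * (8 * X), by omega⟩
      rw [Nat.add_sub_cancel' (by omega)] at h1
      exact h1.card_le (by norm_num)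
    · have hone : Q * 1 + 1 ^ 2 ∈ Sa ∪ Blk Q (2 * g - 1) := Or.inr ⟨1, le_rfl, by omega, rfl⟩
      have h1 := haux (n - 90 * (8 * X) - (Q + 1)) (by omega) (by omega)
        ⟨p - 45 * (8 * X) - 3 * L, by omega⟩
      have h2 := (h1.add (rep_one hone)).card_le (l := 750) (by norm_num)
      convert h2 using 1
      omega
  have hcov1 : ∀ n, n ≤ B' → Rep (Sa ∪ Blk Q (2 * g - 1)) 1500 n := by
    intro n hn
    by_cases h1 : n ≤ B
    · exact (cov1 n h1).mono Set.subset_union_left le_rfl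
    by_cases h2 : c' ≤ n
    · exact (hcov0 n h2 hn).card_le (by norm_num)
    obtain ⟨i, u, hrep, hu1, hu2, hu3, hi⟩ := block_gap (Q := Q) (g := g) (by omega)
        ⟨3 * L, by omega⟩ (n - c) (by omega)
    have hi27 : i ≤ 721 := by
      have h1 : i * E ≤ 721 * E := by rw [← hE] at hi; omega
      exact Nat.le_of_mul_le_mul_right h1 hEpos
    have h3 := cov0 (n - u) (by omega) (by omega)
    have h4 := (h3.mono (B := Sa ∪ Blk Q (2 * g - 1)) Set.subset_union_left le_rfl).add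
      (hrep.mono (B := Sa ∪ Blk Q (2 * g - 1)) Set.subset_union_right le_rfl)
    rw [Nat.sub_add_cancel (by omega)] at h4
    exact h4.card_le (by omega)
  have hLL' : L < L' := by
    rw [hL', hQ]
    nlinarith
  refine ⟨⟨S ∪ Blk Q (2 * g), Sa ∪ Blk Q (2 * g - 1), L', c', B', hgood, ?_, Or.inl zero,
    Or.inl one, ?_, by omega, le_rfl, hcov1, hcov0⟩, ?_⟩
  · rintro x (hx | ⟨a, ha1, ha2, rfl⟩)
    · exact Or.inl (sub hx)
    · exact Or.inr ⟨a, ha1, by omega, rfl⟩
  · rintro x (hx | ⟨a, ha1, ha2, rfl⟩)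
    · have := le x hx
      omega
    · have h1 : Q * a ≤ Q * (2 * g) := Nat.mul_le_mul_left Q ha2
      have h2 : a ^ 2 ≤ (2 * g) ^ 2 := Nat.pow_le_pow_left ha2 2
      omega
  · refine ⟨Set.subset_union_left, Set.subset_union_left, ?_, hLL', L', ?_, ?_, hLL'⟩
    · rintro x (hx | ⟨a, ha1, ha2, rfl⟩) hxn
      · exact absurd hx hxn
      · have : Q * 1 ≤ Q * a := Nat.mul_le_mul_left Q ha1
        show L < _
        omega
    · exact Or.inr ⟨2 * g, by omega, le_rfl, rfl⟩
    · rintro (hx | ⟨a, ha1, ha2, hx⟩)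
      · have := le L' (sub hx)
        omega
      · have h1 : Q * (a + 1) ≤ Q * (2 * g) := Nat.mul_le_mul_left Q (by omega)
        have h2 : a ^ 2 ≤ (2 * g) ^ 2 := Nat.pow_le_pow_left (by omega) 2
        rw [Nat.mul_add] at h1
        omega

lemma base_good : Good ({15625, 3125, 625, 125, 25, 5, 1, 0} : Set ℕ) := by
  have h0 := good_zero
  have h1 := h0.insert_big (X := 0) (f := 1)
    (by intro x hx; simp only [Set.mem_singleton_iff] at hx; omega) (by norm_num)
  have h2 := h1.insert_big (X := 1) (f := 5)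
    (by intro x hx; simp only [Set.mem_insert_iff, Set.mem_singleton_iff] at hx; omega)
    (by norm_num)
  have h3 := h2.insert_big (X := 5) (f := 25)
    (by intro x hx; simp only [Set.mem_insert_iff, Set.mem_singleton_iff] at hx; omega)
    (by norm_num)
  have h4 := h3.insert_big (X := 25) (f := 125)
    (by intro x hx; simp only [Set.mem_insert_iff, Set.mem_singleton_iff] at hx; omega)
    (by norm_num)
  have h5 := h4.insert_big (X := 125) (f := 625)
    (by intro x hx; simp only [Set.mem_insert_iff, Set.mem_singleton_iff] at hx; omega)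
    (by norm_num)
  have h6 := h5.insert_big (X := 625) (f := 3125)
    (by intro x hx; simp only [Set.mem_insert_iff, Set.mem_singleton_iff] at hx; omega)
    (by norm_num)
  exact h6.insert_big (X := 3125) (f := 15625)
    (by intro x hx; simp only [Set.mem_insert_iff, Set.mem_singleton_iff] at hx; omega)
    (by norm_num)

lemma base_cov : ∀ n, n ≤ 203125 → Rep ({15625, 3125, 625, 125, 25, 5, 1, 0} : Set ℕ) 37 n := by
  intro n hn
  have hd : ∀ n : ℕ, ∃ q r, n = 5 * q + r ∧ r ≤ 4 := fun n => ⟨n / 5, n % 5, by omega, by omega⟩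
  obtain ⟨n1, r0, e0, l0⟩ := hd n
  obtain ⟨n2, r1, e1, l1⟩ := hd n1
  obtain ⟨n3, r2, e2, l2⟩ := hd n2
  obtain ⟨n4, r3, e3, l3⟩ := hd n3
  obtain ⟨n5, r4, e4, l4⟩ := hd n4
  obtain ⟨n6, r5, e5, l5⟩ := hd n5
  set S : Set ℕ := {15625, 3125, 625, 125, 25, 5, 1, 0} with hS
  have h6 : Rep S n6 (n6 * 15625) := rep_mul (by simp [hS]) _
  have h5 : Rep S r5 (r5 * 3125) := rep_mul (by simp [hS]) _
  have h4 : Rep S r4 (r4 * 625) := rep_mul (by simp [hS]) _
  have h3 : Rep S r3 (r3 * 125) := rep_mul (by simp [hS]) _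
  have h2 : Rep S r2 (r2 * 25) := rep_mul (by simp [hS]) _
  have h1 : Rep S r1 (r1 * 5) := rep_mul (by simp [hS]) _
  have h0 : Rep S r0 (r0 * 1) := rep_mul (by simp [hS]) _
  have h := (((((h6.add h5).add h4).add h3).add h2).add h1).add h0
  have hn' : n6 * 15625 + r5 * 3125 + r4 * 625 + r3 * 125 + r2 * 25 + r1 * 5 + r0 * 1 = n := by
    subst e5 e4 e3 e2 e1 e0
    ring
  rw [hn'] at h
  refine h.card_le ?_
  have : n6 ≤ 13 := by
    subst e5 e4 e3 e2 e1 e0
    omega
  omega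

/-- The initial state. -/
lemma jbase_exists : Nonempty JState :=
  ⟨⟨{15625, 3125, 625, 125, 25, 5, 1, 0}, {15625, 3125, 625, 125, 25, 5, 1, 0}, 15625, 0, 203125,
    base_good, subset_rfl, by simp, by simp, by
      intro x hx
      simp only [Set.mem_insert_iff, Set.mem_singleton_iff] at hx
      omega, by norm_num, by norm_num, fun n hn => (base_cov n hn).card_le (by norm_num),
    fun n _ hn => (base_cov n hn).card_le (by norm_num)⟩⟩

/-- There is a good set `J` with a subset `Ja` that is an exact basis of order `1500` and leaves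
infinitely many elements of `J`. -/
theorem exists_exact_basis : ∃ J Ja : Set ℕ, Good J ∧ Ja ⊆ J ∧ 0 ∈ Ja ∧ 1 ∈ Ja ∧
    (J \ Ja).Infinite ∧ ∀ n, Rep Ja 1500 n := by
  obtain ⟨s0⟩ := jbase_exists
  choose nxt hnxt using jstep_exists
  set f : ℕ → JState := fun n => Nat.rec s0 (fun _ s => nxt s) n with hf
  have hstep : ∀ n, JStep (f n) (f (n + 1)) := fun n => hnxt (f n)
  have hmonoS : Monotone fun n => (f n).S := monotone_nat_of_le_succ fun n => (hstep n).1
  have hmonoSa : Monotone fun n => (f n).Sa := monotone_nat_of_le_succ fun n => (hstep n).2.1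
  have hL : StrictMono fun n => (f n).L := strictMono_nat_of_lt_succ fun n => (hstep n).2.2.2.1
  have hnew : ∀ n m, n ≤ m → ∀ x ∈ (f m).Sa, x ∉ (f n).Sa → (f n).L < x := by
    intro n m hnm
    induction m, hnm using Nat.le_induction with
    | base => intro x hx hxn; exact absurd hx hxn
    | succ m hnm ih =>
      intro x hx hxn
      by_cases h : x ∈ (f m).Sa
      · exact ih x h hxn
      · exact lt_of_le_of_lt (hL.monotone hnm) ((hstep m).2.2.1 x hx h)
  refine ⟨⋃ n, (f n).S, ⋃ n, (f n).Sa, ?_, ?_, ?_, ?_, ?_, ?_⟩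
  · constructor
    · intro x hx y hy z hz w hw h
      obtain ⟨a, ha⟩ := Set.mem_iUnion.1 hx
      obtain ⟨b, hb⟩ := Set.mem_iUnion.1 hy
      obtain ⟨c, hc⟩ := Set.mem_iUnion.1 hz
      obtain ⟨d, hd⟩ := Set.mem_iUnion.1 hw
      exact (f (a + b + c + d)).good.1 x (hmonoS (by omega) ha) y (hmonoS (by omega) hb) z
        (hmonoS (by omega) hc) w (hmonoS (by omega) hd) h
    · intro x hx y hy z hz w hw h
      obtain ⟨a, ha⟩ := Set.mem_iUnion.1 hx
      obtain ⟨b, hb⟩ := Set.mem_iUnion.1 hy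
      obtain ⟨c, hc⟩ := Set.mem_iUnion.1 hz
      obtain ⟨d, hd⟩ := Set.mem_iUnion.1 hw
      exact (f (a + b + c + d)).good.2 x (hmonoS (by omega) ha) y (hmonoS (by omega) hb) z
        (hmonoS (by omega) hc) w (hmonoS (by omega) hd) h
  · exact Set.iUnion_mono fun n => (f n).sub
  · exact Set.mem_iUnion.2 ⟨0, (f 0).zero⟩
  · exact Set.mem_iUnion.2 ⟨0, (f 0).one⟩
  · refine Set.infinite_of_not_bddAbove ?_
    rintro ⟨K, hK⟩
    obtain ⟨x, hx1, hx2, hx3⟩ := (hstep K).2.2.2.2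
    have hKL : K ≤ (f K).L := hL.id_le K
    have hxJ : x ∈ (⋃ n, (f n).S) \ ⋃ n, (f n).Sa := by
      refine ⟨Set.mem_iUnion.2 ⟨K + 1, hx1⟩, fun hx => ?_⟩
      obtain ⟨m, hm⟩ := Set.mem_iUnion.1 hx
      have h1 := hnew (K + 1) (max m (K + 1)) (le_max_right _ _) x
        (hmonoSa (le_max_left _ _) hm) hx2
      have h2 := (f (K + 1)).le x hx1
      omega
    have := hK hxJ
    omega
  · intro n
    have h1 : n ≤ (f n).B := by
      have h1 : n ≤ (f n).L := hL.id_le n
      have h2 := (f n).room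
      omega
    exact ((f n).cov1 n h1).mono (Set.subset_iUnion (fun n => (f n).Sa) n) le_rfl

end Pool.Agent.H6.SB
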