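import Mathlib
import Pool.Agent.H6.SB.Basic
import Pool.Agent.H6.SB.Complete

set_option autoImplicit false

namespace Pool.Agent.H6.SB

open Finset

/-- A Sidon set in `[0, L]` has at most about `2 √L` elements. -/
lemma sidon_card {A : Set ℕ} {L : ℕ} (hA : Good A) (F : Finset ℕ) (hF : ∀ x ∈ F, x ∈ A ∧ x ≤ L) :
    F.card ^ 2 ≤ 4 * L + 2 := by
  classical
  have h1 : (F ×ˢ F).card ≤ 2 * ((F ×ˢ F).image fun p => p.1 + p.2).card := by
    refine card_le_mul_card_image _ _ ?_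
    intro s hs
    obtain ⟨p, hp, hps⟩ := mem_image.1 hs
    have hsub : ((F ×ˢ F).filter fun x => x.1 + x.2 = s) ⊆ {p, (p.2, p.1)} := by
      intro q hq
      rw [mem_filter, mem_product] at hq
      rw [mem_product] at hp
      rw [mem_insert, mem_singleton]
      have hsum : q.1 + q.2 = p.1 + p.2 := by rw [hq.2, ← hps]
      rcases hA.1 q.1 (hF _ hq.1.1).1 q.2 (hF _ hq.1.2).1 p.1 (hF _ hp.1).1 p.2 (hF _ hp.2).1 hsum
        with h | h
      · left
        exact Prod.ext h (by omega)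
      · right
        exact Prod.ext h (by simp only; omega)
    exact (card_le_card hsub).trans card_le_two
  have h2 : ((F ×ˢ F).image fun p => p.1 + p.2).card ≤ 2 * L + 1 := by
    rw [← card_range (2 * L + 1)]
    refine card_le_card ?_
    intro s hs
    obtain ⟨p, hp, hps⟩ := mem_image.1 hs
    rw [mem_product] at hp
    have := (hF _ hp.1).2
    have := (hF _ hp.2).2
    rw [mem_range]
    omega
  rw [card_product] at h1
  have : F.card ^ 2 = F.card * F.card := by ring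
  omega

/-- The residue classes used at a stage. -/
theorem exists_residues {A : Set ℕ} {L m b : ℕ} (hA : Good A) (hAL : ∀ x ∈ A, x ≤ L)
    (hb : b ∈ A) (hL : 1 ≤ L) (hM : 2 ^ 21 * L ≤ 2 ^ m) :
    ∃ R : Set (ZMod (2 ^ m)), (∀ a ∈ A, a ≠ b → (a : ZMod (2 ^ m)) ∈ R) ∧
      (∀ x ∈ R, ∀ y ∈ R, ∀ z ∈ R, x + y + z ≠ 3 * (b : ZMod (2 ^ m))) ∧
      (∀ z, ∃ x y, (x ∈ R ∨ x = (b : ZMod (2 ^ m))) ∧ (y ∈ R ∨ y = (b : ZMod (2 ^ m))) ∧
        x + y = z) := by
  classical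
  set F : Finset ℕ := (range (L + 1)).filter (· ∈ A) with hF
  have hFmem : ∀ x, x ∈ F ↔ x ∈ A := by
    intro x
    rw [hF, mem_filter, mem_range]
    exact ⟨fun h => h.2, fun h => ⟨by have := hAL x h; omega, h⟩⟩
  have hFcard : F.card ^ 2 ≤ 4 * L + 2 := sidon_card hA F fun x hx =>
    ⟨(hFmem x).1 hx, hAL x ((hFmem x).1 hx)⟩
  have hm21 : 21 ≤ m := by
    have : 2 ^ 21 ≤ 2 ^ m := by omega
    exact (Nat.pow_le_pow_iff_right (by norm_num)).1 this
  set S : Finset (ZMod (2 ^ m)) :=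
    (F.erase b).image (fun a : ℕ => (((a : ℤ) - (b : ℤ) : ℤ) : ZMod (2 ^ m))) ∪
    (F.erase b).image (fun a : ℕ => (((b : ℤ) - (a : ℤ) : ℤ) : ZMod (2 ^ m))) with hS
  have hSmem : ∀ x ∈ S, ∃ a ∈ A, a ≠ b ∧ (x = (((a : ℤ) - (b : ℤ) : ℤ) : ZMod (2 ^ m)) ∨
      x = (((b : ℤ) - (a : ℤ) : ℤ) : ZMod (2 ^ m))) := by
    intro x hx
    rw [hS, mem_union, mem_image, mem_image] at hx
    rcases hx with ⟨a, ha, rfl⟩ | ⟨a, ha, rfl⟩
    · rw [mem_erase] at ha
      exact ⟨a, (hFmem a).1 ha.2, ha.1, Or.inl rfl⟩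
    · rw [mem_erase] at ha
      exact ⟨a, (hFmem a).1 ha.2, ha.1, Or.inr rfl⟩
  have hScard : S.card ≤ 2 * F.card := by
    have h1 : ((F.erase b).image
        (fun a : ℕ => (((a : ℤ) - (b : ℤ) : ℤ) : ZMod (2 ^ m)))).card ≤ F.card :=
      card_image_le.trans (card_le_card (erase_subset _ _))
    have h2 : ((F.erase b).image
        (fun a : ℕ => (((b : ℤ) - (a : ℤ) : ℤ) : ZMod (2 ^ m)))).card ≤ F.card :=
      card_image_le.trans (card_le_card (erase_subset _ _))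
    refine (card_union_le _ _).trans ?_
    omega
  -- no relations in `A`
  have hrel1 : ∀ x ∈ A, ∀ y ∈ A, ∀ z ∈ A, x ≠ b → y ≠ b → z ≠ b → x + y + z ≠ 3 * b := by
    intro x hx y hy z hz h1 h2 h3 h
    rcases hA.2 x hx y hy z hz b hb h with h | h | h
    · exact h1 h
    · exact h2 h
    · exact h3 h
  have hrel2 : ∀ x ∈ A, ∀ y ∈ A, ∀ z ∈ A, x ≠ b → y ≠ b → z ≠ b → x + y ≠ z + b := by
    intro x hx y hy z hz h1 h2 h3 h
    rcases hA.1 x hx y hy z hz b hb h with h' | h'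
    · exact h2 (by omega)
    · exact h1 h'
  have hzero : ∀ s : ℤ, ((s : ℤ) : ZMod (2 ^ m)) = 0 → -(3 * L : ℤ) ≤ s → s ≤ 3 * L → s = 0 := by
    intro s hs h1 h2
    rw [ZMod.intCast_zmod_eq_zero_iff_dvd] at hs
    obtain ⟨c, hc⟩ := hs
    have h3 : (3 * L : ℤ) < ((2 ^ m : ℕ) : ℤ) := by
      have : 3 * L < 2 ^ m := by omega
      exact_mod_cast this
    have h4 : c = 0 := by
      by_contra hcon
      rcases lt_or_gt_of_ne hcon with h | h
      · have : ((2 ^ m : ℕ) : ℤ) * c ≤ ((2 ^ m : ℕ) : ℤ) * (-1) := by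
          apply mul_le_mul_of_nonneg_left (by omega) (by positivity)
        omega
      · have : ((2 ^ m : ℕ) : ℤ) * 1 ≤ ((2 ^ m : ℕ) : ℤ) * c := by
          apply mul_le_mul_of_nonneg_left (by omega) (by positivity)
        omega
    rw [hc, h4, mul_zero]
  have hSSF : SSF S := by
    constructor
    · intro x hx
      rw [hS, mem_union, mem_image, mem_image] at hx ⊢
      rcases hx with ⟨a, ha, rfl⟩ | ⟨a, ha, rfl⟩
      · right
        exact ⟨a, ha, by push_cast; ring⟩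
      · left
        exact ⟨a, ha, by push_cast; ring⟩
    · intro x hx y hy z hz h
      obtain ⟨a₁, ha₁, hb₁, h₁⟩ := hSmem x hx
      obtain ⟨a₂, ha₂, hb₂, h₂⟩ := hSmem y hy
      obtain ⟨a₃, ha₃, hb₃, h₃⟩ := hSmem z hz
      have l₁ := hAL a₁ ha₁
      have l₂ := hAL a₂ ha₂
      have l₃ := hAL a₃ ha₃
      have lb := hAL b hb
      have r111 := hrel1 a₁ ha₁ a₂ ha₂ a₃ ha₃ hb₁ hb₂ hb₃
      have r12 := hrel2 a₁ ha₁ a₂ ha₂ a₃ ha₃ hb₁ hb₂ hb₃
      have r13 := hrel2 a₁ ha₁ a₃ ha₃ a₂ ha₂ hb₁ hb₃ hb₂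
      have r23 := hrel2 a₂ ha₂ a₃ ha₃ a₁ ha₁ hb₂ hb₃ hb₁
      rcases h₁ with rfl | rfl <;> rcases h₂ with rfl | rfl <;> rcases h₃ with rfl | rfl <;>
      · rw [← Int.cast_add, ← Int.cast_add] at h
        have h' := hzero _ h (by omega) (by omega)
        omega
  have hbound : 2 * (81 * S.card) ^ 2 + 6 * (81 * S.card) + 6 < 2 ^ (m - 2) := by
    have hpow : 2 ^ m = 4 * 2 ^ (m - 2) := by
      have : 2 ^ m = 2 ^ 2 * 2 ^ (m - 2) := by rw [← pow_add]; congr 1; omega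
      simpa using this
    have h1 : (81 * S.card) ^ 2 ≤ (162 * F.card) ^ 2 := Nat.pow_le_pow_left (by omega) 2
    have h2 : (162 * F.card) ^ 2 = 26244 * F.card ^ 2 := by ring
    have h3 : F.card ≤ F.card ^ 2 := by nlinarith [Nat.zero_le F.card]
    omega
  obtain ⟨R, hSR, hR, hRc⟩ := hSSF.exists_complete (by omega) hbound
  refine ⟨{x | x - (b : ZMod (2 ^ m)) ∈ R}, ?_, ?_, ?_⟩
  · intro a ha hab
    show (a : ZMod (2 ^ m)) - b ∈ R
    apply hSR
    rw [hS, mem_union, mem_image]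
    left
    exact ⟨a, mem_erase.2 ⟨hab, (hFmem a).2 ha⟩, by push_cast; ring⟩
  · intro x hx y hy z hz h
    exact hR.2 _ hx _ hy _ hz (by linear_combination h)
  · intro z
    by_cases h : z - 2 * (b : ZMod (2 ^ m)) = 0
    · exact ⟨b, b, Or.inr rfl, Or.inr rfl, by linear_combination (-1 : ZMod (2 ^ m)) * h⟩
    · rcases hRc _ h with h | ⟨x, hx, y, hy, hxy⟩
      · refine ⟨z - b, b, Or.inl ?_, Or.inr rfl, by ring⟩
        show z - b - (b : ZMod (2 ^ m)) ∈ R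
        rwa [show z - b - (b : ZMod (2 ^ m)) = z - 2 * b by ring]
      · refine ⟨x + b, y + b, Or.inl ?_, Or.inl ?_, by linear_combination hxy⟩
        · show x + b - (b : ZMod (2 ^ m)) ∈ R
          rwa [add_sub_cancel_right]
        · show y + b - (b : ZMod (2 ^ m)) ∈ R
          rwa [add_sub_cancel_right]

end Pool.Agent.H6.SB
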