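import Mathlib
import Pool.Agent.H6.SB.Basic

set_option autoImplicit false

namespace Pool.Agent.H6.SB

open scoped Classical

/-- Mapping a representation with a controlled error. -/
lemma Rep.map_err {A B : Set ℕ} {k n V X : ℕ} {f : ℕ → ℕ} (h : Rep A k n)
    (hf : ∀ x ∈ A, f x ∈ B ∧ V * x ≤ f x ∧ f x ≤ V * x + X) :
    ∃ e, e ≤ k * X ∧ Rep B k (V * n + e) := by
  obtain ⟨s, hs, hsA, hsum⟩ := h
  have key : ∀ s : Multiset ℕ, (∀ x ∈ s, x ∈ A) →
      ∃ e, e ≤ s.card * X ∧ (s.map f).sum = V * s.sum + e := by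
    intro s
    induction s using Multiset.induction_on with
    | empty => intro _; exact ⟨0, by simp, by simp⟩
    | cons a s ih =>
      intro hs
      obtain ⟨e, he1, he2⟩ := ih fun x hx => hs x (Multiset.mem_cons_of_mem hx)
      obtain ⟨-, h1, h2⟩ := hf a (hs a (Multiset.mem_cons_self a s))
      refine ⟨e + (f a - V * a), ?_, ?_⟩
      · rw [Multiset.card_cons, Nat.add_mul, Nat.one_mul]
        omega
      · rw [Multiset.map_cons, Multiset.sum_cons, Multiset.sum_cons, he2, Nat.mul_add]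
        omega
  obtain ⟨e, he1, he2⟩ := key s hsA
  refine ⟨e, he1.trans (Nat.mul_le_mul_right X hs), s.map f, by simpa using hs, ?_, ?_⟩
  · intro y hy
    obtain ⟨x, hx, rfl⟩ := Multiset.mem_map.1 hy
    exact (hf x (hsA x hx)).1
  · rw [he2, hsum]

theorem stage_lower {J Ja : Set ℕ} (hJ : Good J) (hJa : Ja ⊆ J) (h0 : 0 ∈ Ja)
    (hJinf : J.Infinite) (hcov : ∀ n, Rep Ja 1500 n)
    {A : Set ℕ} {L b M : ℕ} (hA : Good A) (hAL : ∀ x ∈ A, x ≤ L) (h0A : 0 ∈ A)
    (hM1 : L < M) (hM2 : M ≤ 4194304 * L)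
    (hK : ∀ n, 6001 * L ≤ n → n ≤ 300000000000 * L → Rep A 900000000006000 n)
    (R : Set (ZMod M)) (hR1 : ∀ a ∈ A, a ≠ b → (a : ZMod M) ∈ R) :
    ∃ (Λ : Set ℕ) (W : ℕ), 1 ≤ W ∧ Good Λ ∧ A ⊆ Λ ∧ (∀ x ∈ Λ, x < 4 * (M * W)) ∧
      (∀ x ∈ Λ, x ∉ A → L < x) ∧ (∀ x ∈ Λ, ∀ y ∈ Λ, x % M = y % M → x = y) ∧
      (∀ x ∈ Λ, x ≠ b → (x : ZMod M) ∈ R) ∧ (∀ r ∈ R, ∃ x ∈ Λ, (x : ZMod M) = r) ∧
      (∀ n, 6001 * L ≤ n → n < 6001 * L + 64 * (M * W) → Rep Λ 900000000054000 n) := by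
  have hMpos : 0 < M := by omega
  have : NeZero M := ⟨by omega⟩
  -- the missing residues
  set Rrem : Finset ℕ := (Finset.range M).filter (fun r => (r : ZMod M) ∈ R ∧ r ∉ A) with hRrem
  set p : ℕ → Prop := fun u => u ∈ J ∧ u ≠ 0 with hp
  have hpinf : {u | p u}.Infinite := by
    have : (J \ {0}).Infinite := hJinf.sdiff (Set.finite_singleton 0)
    exact this.mono fun x hx => ⟨hx.1, by simpa using hx.2⟩
  set W := Nat.nth p Rrem.card with hW
  have hWp : p W := Nat.nth_mem_of_infinite hpinf _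
  have hW1 : 1 ≤ W := Nat.one_le_iff_ne_zero.2 hWp.2
  set U : Finset ℕ := (Finset.range W).filter p with hU
  have hUcard : U.card = Rrem.card := by
    rw [hU, ← Nat.count_eq_card_filter_range, hW, Nat.count_nth_of_infinite hpinf]
  set e : U ≃ Rrem := Finset.equivOfCardEq hUcard with he
  set v : ℕ → ℕ := fun u => if h : u ∈ U then (e ⟨u, h⟩ : ℕ) else 0 with hv
  have hUmem : ∀ u, u ∈ U ↔ u < W ∧ u ∈ J ∧ u ≠ 0 := by
    intro u
    rw [hU, Finset.mem_filter, Finset.mem_range]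
  have hvmem : ∀ u ∈ U, v u ∈ Rrem := by
    intro u hu
    simp only [hv, hu, dif_pos]
    exact (e ⟨u, hu⟩).2
  have hvinj : ∀ u ∈ U, ∀ u' ∈ U, v u = v u' → u = u' := by
    intro u hu u' hu' h
    simp only [hv, hu, hu', dif_pos] at h
    have h2 := e.injective (Subtype.ext h)
    exact congrArg Subtype.val h2
  have hvsurj : ∀ r ∈ Rrem, ∃ u ∈ U, v u = r := by
    intro r hr
    refine ⟨(e.symm ⟨r, hr⟩ : ℕ), (e.symm ⟨r, hr⟩).2, ?_⟩
    simp only [hv, Subtype.coe_eta, Equiv.apply_symm_apply, dite_eq_ite, ite_eq_left_iff]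
    intro h
    exact absurd (e.symm ⟨r, hr⟩).2 h
  have hRmem : ∀ r, r ∈ Rrem ↔ r < M ∧ (r : ZMod M) ∈ R ∧ r ∉ A := by
    intro r
    rw [hRrem, Finset.mem_filter, Finset.mem_range]
  set JW : Set ℕ := {u ∈ J | u < W} with hJW
  have hJWgood : Good JW := hJ.mono fun x hx => hx.1
  have h0JW : 0 ∈ JW := ⟨hJa h0, by omega⟩
  have hJWU : ∀ u ∈ JW, u ≠ 0 → u ∈ U := fun u hu hu0 => (hUmem u).2 ⟨hu.2, hu.1, hu0⟩
  set Λ : Set ℕ := A ∪ {x | ∃ u ∈ JW, u ≠ 0 ∧ x = (4 * M) * u + v u} with hΛ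
  have hgood : Good Λ := hA.lift (X := M) (fun x hx => by have := hAL x hx; omega) hJWgood h0JW
    (fun u hu hu0 => by have := ((hRmem _).1 (hvmem u (hJWU u hu hu0))).1; omega) (by omega)
  have hmodA : ∀ a ∈ A, a % M = a := fun a ha => Nat.mod_eq_of_lt (by have := hAL a ha; omega)
  have hmodU : ∀ u ∈ U, ((4 * M) * u + v u) % M = v u := by
    intro u hu
    have h1 := ((hRmem _).1 (hvmem u hu)).1
    rw [show (4 * M) * u + v u = v u + M * (4 * u) by ring, Nat.add_mul_mod_self_left]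
    exact Nat.mod_eq_of_lt h1
  have hcast : ∀ x y : ℕ, x % M = y % M → (x : ZMod M) = (y : ZMod M) := by
    intro x y h
    rw [ZMod.natCast_eq_natCast_iff']
    exact h
  refine ⟨Λ, W, hW1, hgood, Set.subset_union_left, ?_, ?_, ?_, ?_, ?_, ?_⟩
  · rintro x (hx | ⟨u, hu, hu0, rfl⟩)
    · have h1 := hAL x hx
      have h2 : M * 1 ≤ M * W := Nat.mul_le_mul_left M hW1
      omega
    · have h1 := ((hRmem _).1 (hvmem u (hJWU u hu hu0))).1
      have h2 : M * (u + 1) ≤ M * W := Nat.mul_le_mul_left M hu.2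
      rw [Nat.mul_add] at h2
      have h3 : 4 * M * u = 4 * (M * u) := by ring
      omega
  · rintro x (hx | ⟨u, hu, hu0, rfl⟩) hxA
    · exact absurd hx hxA
    · have h2 : M * 1 ≤ M * u := Nat.mul_le_mul_left M (by omega)
      have h3 : 4 * M * u = 4 * (M * u) := by ring
      omega
  · rintro x (hx | ⟨u, hu, hu0, rfl⟩) y (hy | ⟨u', hu', hu0', rfl⟩) hxy
    · rw [hmodA x hx, hmodA y hy] at hxy
      exact hxy
    · rw [hmodA x hx, hmodU u' (hJWU u' hu' hu0')] at hxy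
      have := ((hRmem _).1 (hvmem u' (hJWU u' hu' hu0'))).2.2
      rw [← hxy] at this
      exact absurd hx this
    · rw [hmodA y hy, hmodU u (hJWU u hu hu0)] at hxy
      have := ((hRmem _).1 (hvmem u (hJWU u hu hu0))).2.2
      rw [hxy] at this
      exact absurd hy this
    · rw [hmodU u (hJWU u hu hu0), hmodU u' (hJWU u' hu' hu0')] at hxy
      have := hvinj u (hJWU u hu hu0) u' (hJWU u' hu' hu0') hxy
      rw [this]
  · rintro x (hx | ⟨u, hu, hu0, rfl⟩) hxb
    · exact hR1 x hx hxb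
    · have h1 := (hRmem _).1 (hvmem u (hJWU u hu hu0))
      rw [hcast _ (v u) (by rw [hmodU u (hJWU u hu hu0), Nat.mod_eq_of_lt h1.1])]
      exact h1.2.1
  · intro r hr
    by_cases h : r.val ∈ A
    · exact ⟨r.val, Or.inl h, ZMod.natCast_zmod_val r⟩
    · have h1 : r.val ∈ Rrem := (hRmem _).2 ⟨ZMod.val_lt r, by rwa [ZMod.natCast_zmod_val], h⟩
      obtain ⟨u, hu, huv⟩ := hvsurj _ h1
      have hu' := (hUmem u).1 hu
      refine ⟨(4 * M) * u + v u, Or.inr ⟨u, ⟨hu'.2.1, hu'.1⟩, hu'.2.2, rfl⟩, ?_⟩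
      rw [hcast _ r.val (by rw [hmodU u hu, huv, Nat.mod_eq_of_lt (ZMod.val_lt r)]),
        ZMod.natCast_zmod_val]
  · intro n hn1 hn2
    have hA' : ∀ n, 6001 * L ≤ n → n ≤ 300000000000 * L → Rep Λ 900000000054000 n :=
      fun n h1 h2 => (hK n h1 h2).mono Set.subset_union_left (by norm_num)
    by_cases hcase : n ≤ 6001 * L + 48000 * M + 4 * M
    · exact hA' n hn1 (by omega)
    push Not at hcase
    rcases Nat.lt_or_ge W 2 with hW2 | hW2
    · have hWone : W = 1 := by omega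
      rw [hWone, Nat.mul_one] at hn2
      exact hA' n hn1 (by omega)
    -- the general case
    set y := (n - 6001 * L - 48000 * M) / (4 * M) with hy
    have hy1 : y * (4 * M) ≤ n - 6001 * L - 48000 * M := Nat.div_mul_le_self _ _
    have hy2 : n - 6001 * L - 48000 * M < y * (4 * M) + 4 * M := by
      have := Nat.lt_div_mul_add (a := n - 6001 * L - 48000 * M) (b := 4 * M) (by omega)
      rw [← hy] at this
      exact this
    have hyW : y ≤ 32 * (W - 1) := by
      have h1 : y * (4 * M) ≤ (16 * W) * (4 * M) := by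
        have : (16 * W) * (4 * M) = 64 * (M * W) := by ring
        omega
      have h2 := Nat.le_of_mul_le_mul_right h1 (by omega)
      omega
    have hparts : ∀ z, z ≤ W - 1 → Rep {u ∈ Ja | u ≤ W - 1} 1500 z := by
      intro z hz
      exact (hcov z).restrict.mono (fun x hx => ⟨hx.1, hx.2.trans hz⟩) le_rfl
    have hrep := rep_parts hparts 32 y hyW
    obtain ⟨err, herr, hrepΛ⟩ := hrep.map_err (B := Λ) (V := 4 * M) (X := M)
      (f := fun u => if u = 0 then 0 else (4 * M) * u + v u) (by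
        intro x hx
        by_cases hx0 : x = 0
        · simp only [hx0, if_true]
          exact ⟨Or.inl h0A, by simp, by simp⟩
        · simp only [hx0, if_false]
          have hxJ : x ∈ JW := ⟨hJa hx.1, by have := hx.2; omega⟩
          have h1 := ((hRmem _).1 (hvmem x (hJWU x hxJ hx0))).1
          exact ⟨Or.inr ⟨x, hxJ, hx0, rfl⟩, by omega, by omega⟩)
    have h4 : 4 * M * y = y * (4 * M) := by ring
    have hrest := hK (n - (4 * M * y + err)) (by omega) (by omega)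
    have hfin := hrepΛ.add (hrest.mono (B := Λ) Set.subset_union_left le_rfl)
    rw [Nat.add_sub_cancel' (by omega)] at hfin
    exact hfin.card_le (by norm_num)

end Pool.Agent.H6.SB
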