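import Mathlib
import Pool.Agent.H6.SB.Stage1

set_option autoImplicit false

namespace Pool.Agent.H6.SB

open scoped Classical

/-- The top cluster. -/
def Top (J : Set ℕ) (M W : ℕ) : Set ℕ := {x | ∃ j ∈ J, j ≤ 16 * W ∧ x + M * j = 64 * (M * W)}

lemma Top.bounds {J : Set ℕ} {M W x : ℕ} (hx : x ∈ Top J M W) :
    48 * (M * W) ≤ x ∧ x ≤ 64 * (M * W) := by
  obtain ⟨j, -, hj, hx⟩ := hx
  have h1 : M * j ≤ M * (16 * W) := Nat.mul_le_mul_left M hj
  have h2 : M * (16 * W) = 16 * (M * W) := by ring
  omega

lemma Top.dvd {J : Set ℕ} {M W x : ℕ} (hx : x ∈ Top J M W) : M ∣ x := by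
  obtain ⟨j, -, hj, hx⟩ := hx
  have h1 : M ∣ x + M * j := by rw [hx]; exact ⟨64 * W, by ring⟩
  exact (Nat.dvd_add_left ⟨j, rfl⟩).1 h1

lemma good_top {J : Set ℕ} (hJ : Good J) {Λ : Set ℕ} {M W : ℕ} (hM : 0 < M) (hW : 1 ≤ W)
    (hΛ : Good Λ) (hΛlt : ∀ x ∈ Λ, x < 4 * (M * W))
    (hmod : ∀ x ∈ Λ, ∀ y ∈ Λ, x % M = y % M → x = y) : Good (Λ ∪ Top J M W) := by
  have hP : 0 < M * W := Nat.mul_pos hM hW
  have mixed : ∀ t ∈ Top J M W, ∀ l ∈ Λ, ∀ t' ∈ Top J M W, ∀ l' ∈ Λ, t + l = t' + l' →
      t = t' ∧ l = l' := by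
    intro t ht l hl t' ht' l' hl' h
    obtain ⟨c, hc⟩ := Top.dvd ht
    obtain ⟨d, hd⟩ := Top.dvd ht'
    have h1 : l % M = l' % M := by
      have e1 : (t + l) % M = l % M := by rw [hc]; exact Nat.mul_add_mod M c l
      have e2 : (t' + l') % M = l' % M := by rw [hd]; exact Nat.mul_add_mod M d l'
      rw [← e1, ← e2, h]
    have h2 := hmod l hl l' hl' h1
    exact ⟨by omega, h2⟩
  constructor
  · intro x hx y hy z hz w hw hxy
    rcases hx with hx | hx
    · have bx := hΛlt x hx
      rcases hy with hy | hy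
      · have by' := hΛlt y hy
        rcases hz with hz | hz
        · rcases hw with hw | hw
          · exact hΛ.1 x hx y hy z hz w hw hxy
          · have := Top.bounds hw; omega
        · have := Top.bounds hz; omega
      · have by' := Top.bounds hy
        rcases hz with hz | hz
        · rcases hw with hw | hw
          · have := hΛlt z hz; have := hΛlt w hw; omega
          · have := mixed y hy x hx w hw z hz (by omega)
            left; exact this.2
        · rcases hw with hw | hw
          · have := mixed y hy x hx z hz w hw (by omega)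
            right; exact this.2
          · have := Top.bounds hz; have := Top.bounds hw; omega
    · have bx := Top.bounds hx
      rcases hy with hy | hy
      · have by' := hΛlt y hy
        rcases hz with hz | hz
        · rcases hw with hw | hw
          · have := hΛlt z hz; have := hΛlt w hw; omega
          · have := mixed x hx y hy w hw z hz (by omega)
            right; exact this.1
        · rcases hw with hw | hw
          · have := mixed x hx y hy z hz w hw (by omega)
            left; exact this.1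
          · have := Top.bounds hz; have := Top.bounds hw; omega
      · have by' := Top.bounds hy
        rcases hz with hz | hz
        · have := hΛlt z hz
          rcases hw with hw | hw
          · have := hΛlt w hw; omega
          · have := Top.bounds hw; omega
        · rcases hw with hw | hw
          · have := Top.bounds hz; have := hΛlt w hw; omega
          · obtain ⟨j₁, hj₁, -, e₁⟩ := hx
            obtain ⟨j₂, hj₂, -, e₂⟩ := hy
            obtain ⟨j₃, hj₃, -, e₃⟩ := hz
            obtain ⟨j₄, hj₄, -, e₄⟩ := hw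
            have h1 : M * (j₁ + j₂) = M * (j₃ + j₄) := by
              rw [Nat.mul_add, Nat.mul_add]; omega
            have h2 := Nat.eq_of_mul_eq_mul_left hM h1
            rcases hJ.1 j₁ hj₁ j₂ hj₂ j₃ hj₃ j₄ hj₄ h2 with h | h
            · left; rw [h] at e₁; omega
            · right; rw [h] at e₁; omega
  · intro x hx y hy z hz b hb hxy
    rcases hb with hb | hb
    · have hbb := hΛlt b hb
      have hin : ∀ u, u ∈ Λ ∪ Top J M W → u ≤ 3 * b → u ∈ Λ := by
        rintro u (hu | hu) hub
        · exact hu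
        · have := Top.bounds hu; omega
      exact hΛ.2 x (hin x hx (by omega)) y (hin y hy (by omega)) z (hin z hz (by omega)) b hb hxy
    · have hbb := Top.bounds hb
      have hle : ∀ u, u ∈ Λ ∪ Top J M W → u ≤ 64 * (M * W) := by
        rintro u (hu | hu)
        · have := hΛlt u hu; omega
        · exact (Top.bounds hu).2
      have hx' := hle x hx
      have hy' := hle y hy
      have hz' := hle z hz
      have hin : ∀ u, u ∈ Λ ∪ Top J M W → 4 * (M * W) ≤ u → u ∈ Top J M W := by
        rintro u (hu | hu) hub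
        · have := hΛlt u hu; omega
        · exact hu
      obtain ⟨j₁, hj₁, -, e₁⟩ := hin x hx (by omega)
      obtain ⟨j₂, hj₂, -, e₂⟩ := hin y hy (by omega)
      obtain ⟨j₃, hj₃, -, e₃⟩ := hin z hz (by omega)
      obtain ⟨j₄, hj₄, -, e₄⟩ := hb
      have h1 : M * (j₁ + j₂ + j₃) = M * (3 * j₄) := by
        have : M * (3 * j₄) = 3 * (M * j₄) := by ring
        rw [Nat.mul_add, Nat.mul_add]; omega
      have h2 := Nat.eq_of_mul_eq_mul_left hM h1
      rcases hJ.2 j₁ hj₁ j₂ hj₂ j₃ hj₃ j₄ hj₄ h2 with h | h | h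
      · left; rw [h] at e₁; omega
      · right; left; rw [h] at e₂; omega
      · right; right; rw [h] at e₃; omega

/-- Numbers `M * z` with `z` not too small are sums of elements of the top cluster. -/
lemma top_rep {J Ja : Set ℕ} (hJa : Ja ⊆ J) (h0 : 0 ∈ Ja) (hcov : ∀ n, Rep Ja 1500 n)
    {M W : ℕ} (hW : 1 ≤ W) (z k : ℕ) (h1 : 6000 * (64 * W) ≤ z) (h2 : z ≤ k * (64 * W)) :
    Rep (Top J M W) k (M * z) := by
  -- number of summands and deficit
  set q := 64 * W with hq
  set m := (z + (q - 1)) / q with hm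
  have hqpos : 0 < q := by omega
  have hm1 : m * q ≤ z + (q - 1) := Nat.div_mul_le_self _ _
  have hm2 : z + (q - 1) < m * q + q := by
    have := Nat.lt_div_mul_add (a := z + (q - 1)) hqpos
    rw [← hm] at this
    exact this
  have hmk : m ≤ k := by
    have : m * q < (k + 1) * q := by rw [Nat.add_mul]; omega
    have := Nat.lt_of_mul_lt_mul_right this
    omega
  have hm6 : 6000 ≤ m := by
    have : 6000 * q < (m + 1) * q := by rw [Nat.add_mul m]; omega
    have := Nat.lt_of_mul_lt_mul_right this
    omega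
  set s := m * q - z with hs
  have hs1 : s ≤ 4 * (16 * W) := by omega
  have hparts : ∀ y, y ≤ 16 * W → Rep {u ∈ Ja | u ≤ 16 * W} 1500 y := by
    intro y hy
    exact (hcov y).restrict.mono (fun x hx => ⟨hx.1, hx.2.trans hy⟩) le_rfl
  obtain ⟨σ, hσ1, hσ2, hσ3⟩ := rep_parts hparts 4 s hs1
  refine ⟨σ.map (fun j => 64 * (M * W) - M * j) + Multiset.replicate (m - σ.card) (64 * (M * W)),
    ?_, ?_, ?_⟩
  · rw [Multiset.card_add, Multiset.card_map, Multiset.card_replicate]
    omega
  · intro x hx
    rcases Multiset.mem_add.1 hx with h | h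
    · obtain ⟨j, hj, rfl⟩ := Multiset.mem_map.1 h
      obtain ⟨hj1, hj2⟩ := hσ2 j hj
      refine ⟨j, hJa hj1, hj2, ?_⟩
      have h3 : M * j ≤ M * (16 * W) := Nat.mul_le_mul_left M hj2
      have h4 : M * (16 * W) = 16 * (M * W) := by ring
      omega
    · rw [Multiset.eq_of_mem_replicate h]
      exact ⟨0, hJa h0, Nat.zero_le _, by simp⟩
  · have key : ∀ τ : Multiset ℕ, (∀ j ∈ τ, j ≤ 16 * W) →
        (τ.map (fun j => 64 * (M * W) - M * j)).sum + M * τ.sum = τ.card * (64 * (M * W)) := by
      intro τ
      induction τ using Multiset.induction_on with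
      | empty => intro _; simp
      | cons a τ ih =>
        intro hτ
        have ih' := ih fun x hx => hτ x (Multiset.mem_cons_of_mem hx)
        have ha := hτ a (Multiset.mem_cons_self a τ)
        have h3 : M * a ≤ M * (16 * W) := Nat.mul_le_mul_left M ha
        have h4 : M * (16 * W) = 16 * (M * W) := by ring
        rw [Multiset.map_cons, Multiset.sum_cons, Multiset.sum_cons, Multiset.card_cons,
          Nat.mul_add, Nat.add_mul, Nat.one_mul]
        omega
    have hk := key σ (fun j hj => (hσ2 j hj).2)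
    rw [Multiset.sum_add, Multiset.sum_replicate, smul_eq_mul]
    rw [hσ3] at hk
    -- m * (64 M W) = M z + M s
    have h5 : M * z + M * s = m * (64 * (M * W)) := by
      have : z + s = m * q := by omega
      rw [← Nat.mul_add, this, hq]; ring
    have h6 : (m - σ.card) * (64 * (M * W)) + σ.card * (64 * (M * W)) = m * (64 * (M * W)) := by
      rw [← Nat.add_mul, Nat.sub_add_cancel (by omega)]
    omega

/-- A multiset of at most three classes in `R`, where `0 ∈ R`. -/
lemma sum_three {M : ℕ} {R : Set (ZMod M)} (h0 : (0 : ZMod M) ∈ R) (s : Multiset ℕ)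
    (hs : s.card ≤ 3) (hsR : ∀ x ∈ s, (x : ZMod M) ∈ R) :
    ∃ x ∈ R, ∃ y ∈ R, ∃ z ∈ R, ((s.sum : ℕ) : ZMod M) = x + y + z := by
  have hcases : s.card = 0 ∨ s.card = 1 ∨ s.card = 2 ∨ s.card = 3 := by omega
  rcases hcases with h | h | h | h
  · rw [Multiset.card_eq_zero] at h
    subst h
    exact ⟨0, h0, 0, h0, 0, h0, by simp⟩
  · obtain ⟨a, rfl⟩ := Multiset.card_eq_one.1 h
    exact ⟨a, hsR a (by simp), 0, h0, 0, h0, by simp⟩
  · obtain ⟨a, b, rfl⟩ := Multiset.card_eq_two.1 h
    exact ⟨a, hsR a (by simp), b, hsR b (by simp), 0, h0, by simp⟩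
  · obtain ⟨a, b, c, rfl⟩ := Multiset.card_eq_three.1 h
    exact ⟨a, hsR a (by simp), b, hsR b (by simp), c, hsR c (by simp), by
      simp [add_assoc]⟩

end Pool.Agent.H6.SB
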