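import Mathlib
import Pool.Agent.H6.SB.Stage2

set_option autoImplicit false

namespace Pool.Agent.H6.SB

open scoped Classical

/-- The number `n_b` has no representation avoiding `b`. -/
lemma essential {J Λ : Set ℕ} {b M W : ℕ} (hM : 0 < M) (hW : 1 ≤ W)
    (hΛlt : ∀ x ∈ Λ, x < 4 * (M * W)) {R : Set (ZMod M)} (h0R : (0 : ZMod M) ∈ R)
    (hRmem : ∀ x ∈ Λ, x ≠ b → (x : ZMod M) ∈ R)
    (hR3 : ∀ x ∈ R, ∀ y ∈ R, ∀ z ∈ R, x + y + z ≠ 3 * (b : ZMod M)) (k : ℕ) :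
    ¬ Rep ((Λ ∪ Top J M W) \ {b}) (k + 4) (k * (64 * (M * W)) + 16 * (M * W) + M + 3 * b) := by
  rintro ⟨s, hs, hsA, hsum⟩
  have hP : 0 < M * W := Nat.mul_pos hM hW
  set s1 := s.filter (fun x => x < 48 * (M * W)) with hs1
  set s2 := s.filter (fun x => ¬ x < 48 * (M * W)) with hs2
  have hadd : s1 + s2 = s := Multiset.filter_add_not _ s
  have hcard : s1.card + s2.card ≤ k + 4 := by
    rw [← Multiset.card_add, hadd]; exact hs
  have hsum' : s1.sum + s2.sum = k * (64 * (M * W)) + 16 * (M * W) + M + 3 * b := by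
    rw [← Multiset.sum_add, hadd, hsum]
  have hin1 : ∀ x ∈ s1, x ∈ Λ ∧ x ≠ b := by
    intro x hx
    rw [hs1, Multiset.mem_filter] at hx
    obtain ⟨h1 | h1, h2⟩ := hsA x hx.1
    · exact ⟨h1, h2⟩
    · have := Top.bounds h1
      omega
  have hin2 : ∀ x ∈ s2, x ∈ Top J M W := by
    intro x hx
    rw [hs2, Multiset.mem_filter] at hx
    obtain ⟨h1 | h1, h2⟩ := hsA x hx.1
    · have := hΛlt x h1
      omega
    · exact h1
  have hb1 : s1.sum ≤ s1.card * (4 * (M * W)) := by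
    have := Multiset.sum_le_card_nsmul s1 (4 * (M * W)) fun x hx => (hΛlt x (hin1 x hx).1).le
    simpa using this
  have hb2 : s2.sum ≤ s2.card * (64 * (M * W)) := by
    have := Multiset.sum_le_card_nsmul s2 (64 * (M * W)) fun x hx => (Top.bounds (hin2 x hx)).2
    simpa using this
  by_cases h4 : 4 ≤ s1.card
  · obtain ⟨i, hi⟩ : ∃ i, s1.card = 4 + i := ⟨s1.card - 4, by omega⟩
    rw [hi] at hb1 hcard
    have h5 : (i + s2.card) * (64 * (M * W)) ≤ k * (64 * (M * W)) :=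
      Nat.mul_le_mul_right _ (by omega)
    rw [Nat.add_mul] at h5 hb1
    have h6 : i * (4 * (M * W)) ≤ i * (64 * (M * W)) := Nat.mul_le_mul_left i (by omega)
    omega
  · obtain ⟨x, hx, y, hy, z, hz, hxyz⟩ := sum_three h0R s1 (by omega)
      fun x hx => hRmem x (hin1 x hx).1 (hin1 x hx).2
    apply hR3 x hx y hy z hz
    have h2 : M ∣ s2.sum := Multiset.dvd_sum fun x hx => Top.dvd (hin2 x hx)
    have h2' : ((s2.sum : ℕ) : ZMod M) = 0 := (ZMod.natCast_eq_zero_iff _ _).2 h2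
    have h3 : (((s1.sum + s2.sum : ℕ)) : ZMod M) =
        ((k * (64 * (M * W)) + 16 * (M * W) + M + 3 * b : ℕ) : ZMod M) := by rw [hsum']
    rw [Nat.cast_add s1.sum s2.sum, h2', add_zero, hxyz] at h3
    rw [h3]
    push_cast
    rw [ZMod.natCast_self]
    ring

/-- Coverage up to the very top of the `k`-fold sums. -/
lemma high_cov {J Ja Λ : Set ℕ} (hJa : Ja ⊆ J) (h0 : 0 ∈ Ja) (hcov : ∀ n, Rep Ja 1500 n)
    {b M W : ℕ} (hM : 0 < M) (hW : 1 ≤ W) (hΛlt : ∀ x ∈ Λ, x < 4 * (M * W)) (hbΛ : b ∈ Λ)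
    {R : Set (ZMod M)} (hRsurj : ∀ r ∈ R, ∃ x ∈ Λ, (x : ZMod M) = r)
    (hR2 : ∀ z : ZMod M, ∃ x y, (x ∈ R ∨ x = (b : ZMod M)) ∧ (y ∈ R ∨ y = (b : ZMod M)) ∧
      x + y = z) (k n : ℕ) (h1 : 6001 * (64 * (M * W)) + 8 * (M * W) ≤ n)
    (h2 : n ≤ k * (64 * (M * W))) : Rep (Λ ∪ Top J M W) (k + 2) n := by
  have hsurj : ∀ r, (r ∈ R ∨ r = (b : ZMod M)) → ∃ x ∈ Λ, (x : ZMod M) = r := by
    rintro r (hr | rfl)
    · exact hRsurj r hr
    · exact ⟨b, hbΛ, rfl⟩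
  obtain ⟨r₁, r₂, hr₁, hr₂, hr⟩ := hR2 n
  obtain ⟨x₁, hx₁, rfl⟩ := hsurj r₁ hr₁
  obtain ⟨x₂, hx₂, rfl⟩ := hsurj r₂ hr₂
  have hl₁ := hΛlt x₁ hx₁
  have hl₂ := hΛlt x₂ hx₂
  have hdvd : M ∣ n - (x₁ + x₂) := by
    rw [← ZMod.natCast_eq_zero_iff, Nat.cast_sub (by omega)]
    push_cast
    rw [hr, sub_self]
  obtain ⟨z, hz⟩ := hdvd
  have hz1 : 6000 * (64 * W) ≤ z := by
    have h3 : M * (6000 * (64 * W)) = 6000 * (64 * (M * W)) := by ring
    exact Nat.le_of_mul_le_mul_left (by rw [h3, ← hz]; omega) hM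
  have hz2 : z ≤ k * (64 * W) := by
    have h3 : M * (k * (64 * W)) = k * (64 * (M * W)) := by ring
    exact Nat.le_of_mul_le_mul_left (by rw [h3, ← hz]; omega) hM
  have hrep := top_rep hJa h0 hcov (M := M) hW z k hz1 hz2
  have h3 := ((rep_one hx₁).add (rep_one hx₂)).mono (B := Λ ∪ Top J M W) Set.subset_union_left
    le_rfl
  have h4 := h3.add (hrep.mono (B := Λ ∪ Top J M W) Set.subset_union_right le_rfl)
  rw [← hz, Nat.add_sub_cancel' (by omega)] at h4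
  exact h4.card_le (by omega)

/-- Coverage of the middle range. -/
lemma mid_cov {J Λ : Set ℕ} (h0 : 0 ∈ J) {M W N K : ℕ} (hM : 0 < M) (hW : 1 ≤ W)
    (hlow : ∀ n, N ≤ n → n < N + 64 * (M * W) → Rep Λ K n) (C n : ℕ) (h1 : N ≤ n)
    (h2 : n ≤ C * (64 * (M * W))) : Rep (Λ ∪ Top J M W) (C + K) n := by
  have hP : 0 < 64 * (M * W) := by
    have := Nat.mul_pos hM hW
    omega
  set i := (n - N) / (64 * (M * W)) with hi
  have hi1 : i * (64 * (M * W)) ≤ n - N := Nat.div_mul_le_self _ _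
  have hi2 : n - N < i * (64 * (M * W)) + 64 * (M * W) := by
    have := Nat.lt_div_mul_add (a := n - N) hP
    rw [← hi] at this
    exact this
  have hiC : i ≤ C := Nat.le_of_mul_le_mul_right (by omega) hP
  have hq : 64 * (M * W) ∈ Top J M W := ⟨0, h0, Nat.zero_le _, by simp⟩
  have h3 := (rep_mul (A := Λ ∪ Top J M W) (Or.inr hq) i).add
    ((hlow (n - i * (64 * (M * W))) (by omega) (by omega)).mono (B := Λ ∪ Top J M W)
      Set.subset_union_left le_rfl)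
  rw [Nat.add_sub_cancel' (by omega)] at h3
  exact h3.card_le (by omega)

end Pool.Agent.H6.SB
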