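import Mathlib
import Pool.Agent.H6.SB.Stage1

set_option autoImplicit false

namespace Pool.Agent.H6.SB

open scoped Classical

lemma good_three : Good {0, 800000000000000, 1200000000000001} := by
  constructor
  · intro x hx y hy z hz w hw h
    simp only [Set.mem_insert_iff, Set.mem_singleton_iff] at hx hy hz hw
    omega
  · intro x hx y hy z hz w hw h
    simp only [Set.mem_insert_iff, Set.mem_singleton_iff] at hx hy hz hw
    omega

/-- Two intermediate elements. -/
def Two (V : ℕ) : Set ℕ := {800000000000000 * V, 1200000000000001 * V}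

lemma good_two {A : Set ℕ} {X V : ℕ} (hA : Good A) (hAX : ∀ x ∈ A, x ≤ X) (hV : 3 * X < V) :
    Good (A ∪ Two V) := by
  refine (hA.lift (v := fun _ => 0) hAX good_three (by simp)
    (by intros; exact Nat.zero_le _) hV).mono ?_
  rintro x (hx | hx)
  · exact Or.inl hx
  · right
    rcases hx with rfl | hx
    · exact ⟨800000000000000, by simp, by norm_num, by simp only [add_zero]; ring⟩
    · rw [Set.mem_singleton_iff] at hx
      subst hx
      exact ⟨1200000000000001, by simp, by norm_num, by simp only [add_zero]; ring⟩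

lemma two_cov {A : Set ℕ} {V N K : ℕ} (hV : 0 < V)
    (hmid : ∀ n, N ≤ n → n ≤ N + 400000000000001 * V → Rep A K n) (I n : ℕ)
    (h1 : 800000000000000 * V + N ≤ n) (h2 : n ≤ N + I * (800000000000000 * V)) :
    Rep (A ∪ Two V) (I + K) n := by
  have hf : 800000000000000 * V ∈ A ∪ Two V := Or.inr (Or.inl rfl)
  have hf' : 1200000000000001 * V ∈ A ∪ Two V := Or.inr (Or.inr rfl)
  set f := 800000000000000 * V with hfdef
  have hfpos : 0 < f := by omega
  set i := (n - N) / f with hi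
  have hi1 : i * f ≤ n - N := Nat.div_mul_le_self _ _
  have hi2 : n - N < i * f + f := by
    have := Nat.lt_div_mul_add (a := n - N) hfpos
    rw [← hi] at this
    exact this
  have hiI : i ≤ I := Nat.le_of_mul_le_mul_right (by omega) hfpos
  have hi0 : 1 ≤ i := by
    rw [hi, Nat.one_le_div_iff hfpos]
    omega
  by_cases hr : n - N - i * f < 400000000000001 * V
  · have h3 := (rep_mul hf i).add
      ((hmid (n - i * f) (by omega) (by omega)).mono (B := A ∪ Two V) Set.subset_union_left le_rfl)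
    rw [Nat.add_sub_cancel' (by omega)] at h3
    exact h3.card_le (by omega)
  · obtain ⟨j, hj⟩ : ∃ j, i = j + 1 := ⟨i - 1, by omega⟩
    rw [hj, Nat.add_mul, Nat.one_mul] at hi1 hi2 hr
    have h3 := ((rep_mul hf j).add (rep_one hf')).add
      ((hmid (n - (j * f + 1200000000000001 * V)) (by omega) (by omega)).mono (B := A ∪ Two V)
        Set.subset_union_left le_rfl)
    rw [Nat.add_sub_cancel' (by omega)] at h3
    exact h3.card_le (by omega)

/-- The restoring step. -/
theorem stage_restore {J Ja : Set ℕ} (hJ : Good J) (hJa : Ja ⊆ J) (h0 : 0 ∈ Ja)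
    (hJinf : (J \ Ja).Infinite) (hcov : ∀ n, Rep Ja 1500 n)
    {A : Set ℕ} {f N K : ℕ} (hA : Good A) (hAf : ∀ x ∈ A, x ≤ f) (h0A : 0 ∈ A) (hf : 1 ≤ f)
    (hlow : ∀ n, N ≤ n → n ≤ N + 8 * f → Rep A K n) :
    ∃ (A' : Set ℕ) (L : ℕ), Good A' ∧ A ⊆ A' ∧ (∀ x ∈ A', x ≤ L) ∧ 8 * f ≤ L ∧
      (∀ x ∈ A', x ∉ A → 8 * f ≤ x) ∧
      (∀ n, 6001 * L ≤ n → n ≤ 300000000000 * L → Rep A' 900000000006000 n) ∧
      (∀ n, N ≤ n → n ≤ 6001 * L → Rep A' (18003000 + K) n) := by
  set p : ℕ → Prop := fun u => u ∈ J \ Ja with hp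
  have hpinf : {u | p u}.Infinite := hJinf
  set ψ : ℕ → ℕ := Nat.nth p with hψ
  have hψp : ∀ j, p (ψ j) := fun j => Nat.nth_mem_of_infinite hpinf j
  have hψmono : StrictMono ψ := Nat.nth_strictMono hpinf
  set w := ψ (2 * f) with hw
  have hw1 : 2 * f ≤ w := hψmono.id_le _
  set V := 8 * f with hV
  set J2 : Set ℕ := {u ∈ J | u ≤ w ∧ (u ∈ Ja ∨ ∃ j ∈ Ja, j ≤ 2 * f ∧ u = ψ j)} with hJ2
  set v : ℕ → ℕ := fun u => if u ∈ Ja then 0 else Nat.count p u with hv
  have hva : ∀ u ∈ Ja, v u = 0 := fun u hu => by simp only [hv, hu, if_true]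
  have hvψ : ∀ j, v (ψ j) = j := by
    intro j
    have h1 : ψ j ∉ Ja := (hψp j).2
    simp only [hv, h1, if_false]
    exact Nat.count_nth_of_infinite hpinf j
  have hJ2good : Good J2 := hJ.mono fun x hx => hx.1
  have h0J2 : 0 ∈ J2 := ⟨hJa h0, Nat.zero_le _, Or.inl h0⟩
  have hv2 : ∀ u ∈ J2, v u ≤ 2 * f := by
    rintro u ⟨-, -, hu | ⟨j, -, hj, rfl⟩⟩
    · rw [hva u hu]; exact Nat.zero_le _
    · rw [hvψ]; exact hj
  set A' : Set ℕ := A ∪ {x | ∃ u ∈ J2, u ≠ 0 ∧ x = V * u + v u} with hA'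
  have hgood : Good A' := hA.lift (X := 2 * f) (fun x hx => by have := hAf x hx; omega) hJ2good
    h0J2 (fun u hu _ => hv2 u hu) (by omega)
  have hmemA : ∀ u ∈ Ja, u ≤ w → V * u ∈ A' := by
    intro u hu huw
    by_cases hu0 : u = 0
    · rw [hu0, Nat.mul_zero]; exact Or.inl h0A
    · exact Or.inr ⟨u, ⟨hJa hu, huw, Or.inl hu⟩, hu0, by rw [hva u hu, Nat.add_zero]⟩
  have hmemψ : ∀ j ∈ Ja, j ≤ 2 * f → V * ψ j + j ∈ A' := by
    intro j hj hjf
    have hne : ψ j ≠ 0 := fun h => (hψp j).2 (h ▸ h0)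
    exact Or.inr ⟨ψ j, ⟨(hψp j).1, hψmono.monotone hjf, Or.inr ⟨j, hj, hjf, rfl⟩⟩, hne,
      by rw [hvψ]⟩
  have hpartsw : ∀ z, z ≤ w → Rep {u ∈ Ja | u ≤ w} 1500 z := by
    intro z hz
    exact (hcov z).restrict.mono (fun x hx => ⟨hx.1, hx.2.trans hz⟩) le_rfl
  have hpartsf : ∀ z, z ≤ 2 * f → Rep {u ∈ Ja | u ≤ 2 * f} 1500 z := by
    intro z hz
    exact (hcov z).restrict.mono (fun x hx => ⟨hx.1, hx.2.trans hz⟩) le_rfl
  have hVpos : 0 < V := by omega
  refine ⟨A', V * (w + 1), hgood, Set.subset_union_left, ?_, ?_, ?_, ?_, ?_⟩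
  · rintro x (hx | ⟨u, hu, hu0, rfl⟩)
    · have h1 := hAf x hx
      have h2 : V * 1 ≤ V * (w + 1) := Nat.mul_le_mul_left V (by omega)
      omega
    · have h1 := hv2 u hu
      have h2 : V * u ≤ V * w := Nat.mul_le_mul_left V hu.2.1
      rw [Nat.mul_add]
      omega
  · have h2 : V * 1 ≤ V * (w + 1) := Nat.mul_le_mul_left V (by omega)
    omega
  · rintro x (hx | ⟨u, hu, hu0, rfl⟩) hxA
    · exact absurd hx hxA
    · have h2 : V * 1 ≤ V * u := Nat.mul_le_mul_left V (by omega)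
      omega
  · intro n hn1 hn2
    set Z := n / V with hZ
    set φ := n % V with hφ
    have hn : V * Z + φ = n := Nat.div_add_mod n V
    have hφlt : φ < V := Nat.mod_lt _ hVpos
    have hZ1 : 6001 * (w + 1) ≤ Z := by
      rw [hZ, Nat.le_div_iff_mul_le hVpos]
      calc 6001 * (w + 1) * V = 6001 * (V * (w + 1)) := by ring
        _ ≤ n := hn1
    have hZ2 : Z ≤ 300000000000 * (w + 1) := by
      have h3 : V * Z ≤ V * (300000000000 * (w + 1)) := by
        have : V * (300000000000 * (w + 1)) = 300000000000 * (V * (w + 1)) := by ring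
        omega
      exact Nat.le_of_mul_le_mul_left h3 hVpos
    obtain ⟨σ, hσ1, hσ2, hσ3⟩ := rep_parts hpartsf 4 φ (by omega)
    have hY : (σ.map ψ).sum ≤ 6000 * w := by
      have h3 := Multiset.sum_le_card_nsmul (σ.map ψ) w (by
        intro x hx
        obtain ⟨j, hj, rfl⟩ := Multiset.mem_map.1 hx
        exact hψmono.monotone (hσ2 j hj).2)
      rw [Multiset.card_map, smul_eq_mul] at h3
      exact h3.trans (Nat.mul_le_mul_right w hσ1)
    have hsum : (σ.map (fun j => V * ψ j + j)).sum = V * (σ.map ψ).sum + σ.sum := by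
      rw [Multiset.sum_map_add, Multiset.sum_map_mul_left, Multiset.map_id']
    have hrep1 : Rep A' 6000 (V * (σ.map ψ).sum + φ) := by
      refine ⟨σ.map (fun j => V * ψ j + j), by simpa using hσ1, ?_, by rw [hsum, hσ3]⟩
      intro x hx
      obtain ⟨j, hj, rfl⟩ := Multiset.mem_map.1 hx
      exact hmemψ j (hσ2 j hj).1 (hσ2 j hj).2
    have hrep2 := (rep_parts hpartsw 600000000000 (Z - (σ.map ψ).sum) (by omega)).map_exact
      (B := A') (V := V) (f := fun u => V * u) (fun x hx => ⟨hmemA x hx.1 hx.2, rfl⟩)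
    have h4 := hrep1.add hrep2
    have h5 : V * (σ.map ψ).sum + φ + V * (Z - (σ.map ψ).sum) = n := by
      have : V * (σ.map ψ).sum + V * (Z - (σ.map ψ).sum) = V * Z := by
        rw [← Nat.mul_add, Nat.add_sub_cancel' (by omega)]
      omega
    rw [h5] at h4
    exact h4.card_le (by norm_num)
  · intro n hn1 hn2
    set y := (n - N) / V with hy
    have hy1 : V * y + (n - N) % V = n - N := Nat.div_add_mod _ _
    have hylt : (n - N) % V < V := Nat.mod_lt _ hVpos
    have hy2 : y ≤ 12002 * w := by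
      have h3 : V * y ≤ V * (6001 * (w + 1)) := by
        have : V * (6001 * (w + 1)) = 6001 * (V * (w + 1)) := by ring
        omega
      have := Nat.le_of_mul_le_mul_left h3 hVpos
      omega
    have hrep2 := (rep_parts hpartsw 12002 y hy2).map_exact
      (B := A') (V := V) (f := fun u => V * u) (fun x hx => ⟨hmemA x hx.1 hx.2, rfl⟩)
    have h3 := hlow (N + (n - N) % V) (by omega) (by omega)
    have h4 := hrep2.add (h3.mono (B := A') Set.subset_union_left le_rfl)
    have h5 : V * y + (N + (n - N) % V) = n := by omega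
    rw [h5] at h4
    exact h4.card_le (by omega)

end Pool.Agent.H6.SB
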