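import Mathlib
import Pool.Agent.H6.SB.Residue
import Pool.Agent.H6.SB.Stage3
import Pool.Agent.H6.SB.Stage4

set_option autoImplicit false

namespace Pool.Agent.H6.SB

open scoped Classical

/-- The invariant of the construction. -/
structure Inv (A : Set ℕ) (L : ℕ) : Prop where
  good : Good A
  zero : 0 ∈ A
  le : ∀ x ∈ A, x ≤ L
  big : 100000000 ≤ L
  cov1 : ∀ n, n ≤ 300000000000 * L → Rep A 3200000000000003 n
  cov0 : ∀ n, 6001 * L ≤ n → n ≤ 300000000000 * L → Rep A 900000000006000 n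

lemma exists_pow (L : ℕ) (hL : 1 ≤ L) : ∃ m, 2 ^ 21 * L ≤ 2 ^ m ∧ 2 ^ m ≤ 4194304 * L := by
  refine ⟨Nat.log 2 L + 22, ?_, ?_⟩
  · have h1 : L < 2 ^ (Nat.log 2 L + 1) := Nat.lt_pow_succ_log_self (by norm_num) L
    have h2 : 2 ^ (Nat.log 2 L + 22) = 2 ^ 21 * 2 ^ (Nat.log 2 L + 1) := by
      rw [← pow_add]; congr 1; omega
    rw [h2]
    exact Nat.mul_le_mul_left _ h1.le
  · have h1 : 2 ^ Nat.log 2 L ≤ L := Nat.pow_log_le_self 2 (by omega)
    have h2 : 2 ^ (Nat.log 2 L + 22) = 4194304 * 2 ^ Nat.log 2 L := by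
      rw [pow_add]; norm_num [mul_comm]
    rw [h2]
    exact Nat.mul_le_mul_left _ h1

theorem stage {J Ja : Set ℕ} (hJ : Good J) (hJa : Ja ⊆ J) (h0 : 0 ∈ Ja)
    (hJinf : (J \ Ja).Infinite) (hcov : ∀ n, Rep Ja 1500 n)
    {A : Set ℕ} {L b : ℕ} (hA : Inv A L) (hb : b ∈ A) (hb0 : b ≠ 0) :
    ∃ (A' : Set ℕ) (L' : ℕ), Inv A' L' ∧ A ⊆ A' ∧ L < L' ∧ (∀ x ∈ A', x ∉ A → L < x) ∧
      ∃ n, L < n ∧ n ≤ L' ∧ ¬ Rep (A' \ {b}) 3200000000000004 n := by
  obtain ⟨hgood, hzero, hle, hbig, hcov1, hcov0⟩ := hA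
  have hbL := hle b hb
  obtain ⟨m, hm1, hm2⟩ := exists_pow L (by omega)
  obtain ⟨R, hR1, hR3, hR2⟩ := exists_residues hgood hle hb (by omega) hm1
  generalize hM : 2 ^ m = M at R hR1 hR3 hR2 hm1 hm2
  have hM1 : L < M := by omega
  have hMpos : 0 < M := by omega
  obtain ⟨Λ, W, hW, hΛgood, hAΛ, hΛlt, hΛnew, hΛmod, hΛR, hΛsurj, hΛlow⟩ :=
    stage_lower hJ hJa h0 (hJinf.mono Set.sdiff_subset) hcov hgood hle hzero hM1 hm2 hcov0 R hR1
  have h0R : (0 : ZMod M) ∈ R := by
    have := hR1 0 hzero (Ne.symm hb0)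
    simpa using this
  have hess := essential (J := J) hMpos hW hΛlt h0R hΛR hR3 3200000000000000
  have hhigh := high_cov hJa h0 hcov hMpos hW hΛlt (hAΛ hb) hΛsurj hR2 3200000000000001
  have hmid := mid_cov (hJa h0) hMpos hW hΛlow 2000000000000006
  have hgood1 := good_top hJ hMpos hW hΛgood hΛlt hΛmod
  set A₁ := Λ ∪ Top J M W with hA₁
  set P := M * W with hP
  have hMP : M ≤ P := by
    have : M * 1 ≤ M * W := Nat.mul_le_mul_left M hW
    omega
  have hA₁le : ∀ x ∈ A₁, x ≤ 64 * P := by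
    rintro x (hx | hx)
    · have := hΛlt x hx; omega
    · exact (Top.bounds hx).2
  -- the intermediate elements
  set t := 16 * P / 400000000000000 with ht
  set V := 256 * P + t with hV
  have hgood2 := good_two (V := V) hgood1 hA₁le (by omega)
  set A₂ := A₁ ∪ Two V with hA₂
  have htwo := two_cov (A := A₁) (V := V) (N := 6001 * L)
    (K := 2000000000000006 + 900000000054000) (by omega) (fun n h1 h2 => hmid n h1 (by omega))
  -- the restoring step
  obtain ⟨A', L', hgood', hA₂A', hle', hfL', hnew', hcov0', hcov1'⟩ := stage_restore hJ hJa h0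
    hJinf hcov (A := A₂) (f := 1200000000000001 * V) (N := 800000000000000 * V + 6001 * L)
    (K := 14 + (2000000000000006 + 900000000054000)) hgood2 (by
      rintro x (hx | hx)
      · have := hA₁le x hx; omega
      · rcases hx with rfl | hx
        · omega
        · rw [Set.mem_singleton_iff] at hx
          omega) (Or.inl (Or.inl (hAΛ hzero))) (by omega)
      (fun n h1 h2 => htwo 14 n h1 (by omega))
  have hA₁A₂ : A₁ ⊆ A₂ := Set.subset_union_left
  have hΛA₁ : Λ ⊆ A₁ := Set.subset_union_left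
  have hAA' : A ⊆ A' := hAΛ.trans (hΛA₁.trans (hA₁A₂.trans hA₂A'))
  have htwoge : ∀ x ∈ Two V, 800000000000000 * V ≤ x := by
    rintro x (rfl | hx)
    · exact le_rfl
    · rw [Set.mem_singleton_iff] at hx
      omega
  refine ⟨A', L', ⟨hgood', hAA' hzero, hle', by omega, ?_, hcov0'⟩, hAA', by omega, ?_,
    3200000000000000 * (64 * P) + 16 * P + M + 3 * b, by omega, by omega, ?_⟩
  · intro n hn
    by_cases c1 : n ≤ 300000000000 * L
    · exact (hcov1 n c1).mono hAA' le_rfl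
    by_cases c2 : n ≤ 2000000000000006 * (64 * P)
    · exact (hmid n (by omega) c2).mono (hA₁A₂.trans hA₂A') (by norm_num)
    by_cases c3 : n ≤ 3200000000000001 * (64 * P)
    · exact (hhigh n (by omega) c3).mono (hA₁A₂.trans hA₂A') (by norm_num)
    by_cases c4 : n ≤ 6001 * L'
    · exact (hcov1' n (by omega) c4).card_le (by norm_num)
    · exact (hcov0' n (by omega) hn).card_le (by norm_num)
  · intro x hx hxA
    by_cases h1 : x ∈ A₂
    · rcases h1 with (h1 | h1) | h1
      · exact hΛnew x h1 hxA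
      · have := Top.bounds h1; omega
      · have := htwoge x h1; omega
    · have := hnew' x hx h1; omega
  · intro hrep
    apply hess
    refine hrep.restrict.mono ?_ (by norm_num)
    rintro x ⟨⟨hx, hxb⟩, hxn⟩
    refine ⟨?_, hxb⟩
    by_cases h1 : x ∈ A₂
    · rcases h1 with h1 | h1
      · exact h1
      · have := htwoge x h1; omega
    · have := hnew' x hx h1; omega

end Pool.Agent.H6.SB
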