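import Mathlib
import Pool.Agent.H6.SB.ExactBasis
import Pool.Agent.H6.SB.Stage5

set_option autoImplicit false

namespace Pool.Agent.H6.SB

open scoped Classical

/-- One step that serves all elements of a finite set. -/
lemma stage_many {J Ja : Set ℕ} (hJ : Good J) (hJa : Ja ⊆ J) (h0 : 0 ∈ Ja)
    (hJinf : (J \ Ja).Infinite) (hcov : ∀ n, Rep Ja 1500 n)
    {A : Set ℕ} {L : ℕ} (hA : Inv A L) (F : Finset ℕ) : (∀ b ∈ F, b ∈ A) →
    ∃ (A' : Set ℕ) (L' : ℕ), Inv A' L' ∧ A ⊆ A' ∧ L ≤ L' ∧ (∀ x ∈ A', x ∉ A → L < x) ∧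
      ∀ b ∈ F, b ≠ 0 → ∃ n, L < n ∧ n ≤ L' ∧ ¬ Rep (A' \ {b}) 3200000000000004 n := by
  induction F using Finset.induction_on with
  | empty =>
    intro _
    exact ⟨A, L, hA, subset_rfl, le_rfl, fun x hx hxn => absurd hx hxn, by simp⟩
  | insert b F hbF ih =>
    intro hF
    obtain ⟨A₁, L₁, hInv₁, hAA₁, hLL₁, hnew₁, hserved₁⟩ :=
      ih fun x hx => hF x (Finset.mem_insert_of_mem hx)
    by_cases hb0 : b = 0
    · refine ⟨A₁, L₁, hInv₁, hAA₁, hLL₁, hnew₁, ?_⟩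
      intro x hx hx0
      rcases Finset.mem_insert.1 hx with rfl | hx
      · exact absurd hb0 hx0
      · exact hserved₁ x hx hx0
    · obtain ⟨A₂, L₂, hInv₂, hA₁A₂, hL₁L₂, hnew₂, n, hn1, hn2, hn3⟩ := stage hJ hJa h0 hJinf hcov
        hInv₁ (hAA₁ (hF b (Finset.mem_insert_self b F))) hb0
      refine ⟨A₂, L₂, hInv₂, hAA₁.trans hA₁A₂, by omega, ?_, ?_⟩
      · intro x hx hxA
        by_cases h : x ∈ A₁
        · exact hnew₁ x h hxA
        · have := hnew₂ x hx h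
          omega
      · intro x hx hx0
        rcases Finset.mem_insert.1 hx with rfl | hx
        · exact ⟨n, by omega, hn2, hn3⟩
        · obtain ⟨n', h1, h2, h3⟩ := hserved₁ x hx hx0
          refine ⟨n', h1, by omega, fun hrep => h3 (hrep.restrict.mono ?_ le_rfl)⟩
          rintro y ⟨⟨hy, hyx⟩, hyn⟩
          refine ⟨?_, hyx⟩
          by_contra hyA
          have := hnew₂ y hy hyA
          omega

lemma stage_all {J Ja : Set ℕ} (hJ : Good J) (hJa : Ja ⊆ J) (h0 : 0 ∈ Ja)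
    (hJinf : (J \ Ja).Infinite) (hcov : ∀ n, Rep Ja 1500 n)
    {A : Set ℕ} {L : ℕ} (hA : Inv A L ∧ 1 ∈ A) :
    ∃ (A' : Set ℕ) (L' : ℕ), (Inv A' L' ∧ 1 ∈ A') ∧ A ⊆ A' ∧ L < L' ∧
      (∀ x ∈ A', x ∉ A → L < x) ∧
      ∀ b ∈ A, b ≠ 0 → ∃ n, b < n ∧ n ≤ L' ∧ ¬ Rep (A' \ {b}) 3200000000000004 n := by
  obtain ⟨A', L', h1, h2, h3, h4, h5⟩ := stage_many hJ hJa h0 hJinf hcov hA.1
    ((Finset.range (L + 1)).filter (· ∈ A)) (fun b hb => (Finset.mem_filter.1 hb).2)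
  have hmem : ∀ b ∈ A, b ∈ (Finset.range (L + 1)).filter (· ∈ A) := by
    intro b hb
    rw [Finset.mem_filter, Finset.mem_range]
    exact ⟨by have := hA.1.le b hb; omega, hb⟩
  refine ⟨A', L', ⟨h1, h2 hA.2⟩, h2, ?_, h4, ?_⟩
  · obtain ⟨n, hn1, hn2, -⟩ := h5 1 (hmem 1 hA.2) one_ne_zero
    omega
  · intro b hb hb0
    obtain ⟨n, hn1, hn2, hn3⟩ := h5 b (hmem b hb) hb0
    exact ⟨n, by have := hA.1.le b hb; omega, hn2, hn3⟩

/-- The main construction. -/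
theorem exists_tight : ∃ A : Set ℕ, 0 ∈ A ∧ (∀ n, Rep A 3200000000000003 n) ∧
    ∀ b ∈ A, b ≠ 0 → ∃ n, b < n ∧ ¬ Rep (A \ {b}) 3200000000000004 n := by
  obtain ⟨J, Ja, hJ, hJa, h0, h1, hJinf, hcov⟩ := exists_exact_basis
  -- initial state
  set A₀ : Set ℕ := {u ∈ Ja | u ≤ 100000000} with hA₀
  have hparts : ∀ z, z ≤ 100000000 → Rep A₀ 1500 z := by
    intro z hz
    exact (hcov z).restrict.mono (fun x hx => ⟨hx.1, hx.2.trans hz⟩) le_rfl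
  have hInv₀ : Inv A₀ 100000000 ∧ 1 ∈ A₀ := by
    refine ⟨⟨hJ.mono fun x hx => hJa hx.1, ⟨h0, by norm_num⟩, fun x hx => hx.2, le_rfl, ?_, ?_⟩,
      ⟨h1, by norm_num⟩⟩
    · intro n hn
      exact (rep_parts hparts 300000000000 n hn).card_le (by norm_num)
    · intro n _ hn
      exact (rep_parts hparts 300000000000 n hn).card_le (by norm_num)
  -- iterate
  set T := {s : Set ℕ × ℕ // Inv s.1 s.2 ∧ 1 ∈ s.1} with hT
  have hnext : ∀ s : T, ∃ t : T, s.1.1 ⊆ t.1.1 ∧ s.1.2 < t.1.2 ∧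
      (∀ x ∈ t.1.1, x ∉ s.1.1 → s.1.2 < x) ∧
      ∀ b ∈ s.1.1, b ≠ 0 → ∃ n, b < n ∧ n ≤ t.1.2 ∧ ¬ Rep (t.1.1 \ {b}) 3200000000000004 n := by
    rintro ⟨⟨A, L⟩, hs⟩
    obtain ⟨A', L', h1, h2, h3, h4, h5⟩ := stage_all hJ hJa h0 hJinf hcov hs
    exact ⟨⟨⟨A', L'⟩, h1⟩, h2, h3, h4, h5⟩
  choose nxt hnxt using hnext
  set f : ℕ → T := fun n => Nat.rec ⟨⟨A₀, 100000000⟩, hInv₀⟩ (fun _ s => nxt s) n with hf
  have hstep : ∀ n, f (n + 1) = nxt (f n) := fun n => rfl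
  have hmono : Monotone fun n => (f n).1.1 := by
    refine monotone_nat_of_le_succ fun n => ?_
    rw [hstep]
    exact (hnxt (f n)).1
  have hL : StrictMono fun n => (f n).1.2 := by
    refine strictMono_nat_of_lt_succ fun n => ?_
    rw [hstep]
    exact (hnxt (f n)).2.1
  have hnew : ∀ n m, n ≤ m → ∀ x ∈ (f m).1.1, x ∉ (f n).1.1 → (f n).1.2 < x := by
    intro n m hnm
    induction m, hnm using Nat.le_induction with
    | base => intro x hx hxn; exact absurd hx hxn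
    | succ m hnm ih =>
      intro x hx hxn
      by_cases h : x ∈ (f m).1.1
      · exact ih x h hxn
      · rw [hstep] at hx
        exact lt_of_le_of_lt (hL.monotone hnm) ((hnxt (f m)).2.2.1 x hx h)
  refine ⟨⋃ n, (f n).1.1, ?_, ?_, ?_⟩
  · exact Set.mem_iUnion.2 ⟨0, (f 0).2.1.zero⟩
  · intro n
    have h2 : n ≤ (f n).1.2 := hL.id_le n
    exact ((f n).2.1.cov1 n (by omega)).mono (Set.subset_iUnion (fun n => (f n).1.1) n) le_rfl
  · intro b hb hb0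
    obtain ⟨i, hi⟩ := Set.mem_iUnion.1 hb
    obtain ⟨n, hn1, hn2, hn3⟩ := (hnxt (f i)).2.2.2 b hi hb0
    rw [← hstep] at hn2 hn3
    refine ⟨n, hn1, fun hrep => hn3 (hrep.restrict.mono ?_ le_rfl)⟩
    rintro x ⟨⟨hx, hxb⟩, hxn⟩
    refine ⟨?_, hxb⟩
    obtain ⟨j, hj⟩ := Set.mem_iUnion.1 hx
    by_contra hxi
    have := hnew (i + 1) (max j (i + 1)) (le_max_right _ _) x (hmono (le_max_left _ _) hj) hxi
    omega

end Pool.Agent.H6.SB
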