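import Mathlib
import Pool.Agent.H6.SB.Final

set_option autoImplicit false

namespace Pool.Agent.H6.SB.LargeOrderCounterexample

open Pool.Agent.H6.SB

/-- `A` is an asymptotic additive basis of order `h`: every sufficiently large natural number is a
sum of `h` elements of `A` (repetitions allowed). -/
def IsAsymptoticBasis (A : Set ℕ) (h : ℕ) : Prop :=
  ∃ N : ℕ, ∀ n : ℕ, N ≤ n → ∃ s : Fin h → ℕ, (∀ i, s i ∈ A) ∧ ∑ i, s i = n

/-- `A` is minimal of order `k` in the sense of infinite removals: `A` is an asymptotic additive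
basis of order `k`, and for every infinite `B ⊆ A` the set `A \ B` is not one. -/
def IsMinimalOfOrder (A : Set ℕ) (k : ℕ) : Prop :=
  IsAsymptoticBasis A k ∧ ∀ B : Set ℕ, B ⊆ A → B.Infinite → ¬ IsAsymptoticBasis (A \ B) k

lemma fin_of_rep {A : Set ℕ} {k n : ℕ} (h0 : 0 ∈ A) (h : Rep A k n) :
    ∃ s : Fin k → ℕ, (∀ i, s i ∈ A) ∧ ∑ i, s i = n := by
  obtain ⟨s, hs, hsA, hsum⟩ := h
  obtain ⟨l, hl, hlA, hlsum⟩ : ∃ l : List ℕ, l.length = k ∧ (∀ x ∈ l, x ∈ A) ∧ l.sum = n := by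
    refine ⟨(s + Multiset.replicate (k - s.card) 0).toList, ?_, ?_, ?_⟩
    · rw [Multiset.length_toList, Multiset.card_add, Multiset.card_replicate]
      omega
    · intro x hx
      rw [Multiset.mem_toList, Multiset.mem_add] at hx
      rcases hx with hx | hx
      · exact hsA x hx
      · rw [Multiset.eq_of_mem_replicate hx]; exact h0
    · rw [Multiset.sum_toList, Multiset.sum_add, hsum, Multiset.sum_replicate]
      simp
  subst hl
  refine ⟨fun i => l[i.1], fun i => hlA _ (List.getElem_mem _), ?_⟩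
  rw [← hlsum]
  exact Fin.sum_univ_getElem l

lemma rep_of_fin {A : Set ℕ} {k n : ℕ} (h : ∃ s : Fin k → ℕ, (∀ i, s i ∈ A) ∧ ∑ i, s i = n) :
    Rep A k n := by
  obtain ⟨s, hs, hsum⟩ := h
  refine ⟨Finset.univ.val.map s, by simp, ?_, hsum⟩
  intro x hx
  obtain ⟨i, -, rfl⟩ := Multiset.mem_map.1 hx
  exact hs i

/-- There are `k ≥ 1` and a set `A` that is minimal of order `k` such that for every infinite
`B ⊆ A` the set `A \ B` is not an asymptotic basis of order `k + 1`. -/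
theorem result : ∃ k : ℕ, 1 ≤ k ∧ ∃ A : Set ℕ, IsMinimalOfOrder A k ∧
    ∀ B : Set ℕ, B ⊆ A → B.Infinite → ¬ IsAsymptoticBasis (A \ B) (k + 1) := by
  obtain ⟨A, h0, hbasis, htight⟩ := exists_tight
  have hno : ∀ (B : Set ℕ) (k : ℕ), k ≤ 3200000000000004 → B ⊆ A → B.Infinite →
      ¬ IsAsymptoticBasis (A \ B) k := by
    rintro B k hk hBA hB ⟨N, hN⟩
    obtain ⟨b, hbB, hb⟩ := hB.exists_gt N
    obtain ⟨n, hn, hrep⟩ := htight b (hBA hbB) (by omega)
    apply hrep
    refine (rep_of_fin (hN n (by omega))).mono ?_ hk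
    rintro x ⟨hxA, hxB⟩
    refine ⟨hxA, ?_⟩
    rintro rfl
    exact hxB hbB
  refine ⟨3200000000000003, by norm_num, A, ⟨⟨0, fun n _ => fin_of_rep h0 (hbasis n)⟩, ?_⟩, ?_⟩
  · intro B hBA hB
    exact hno B _ (by norm_num) hBA hB
  · intro B hBA hB
    exact hno B _ (by norm_num) hBA hB

end Pool.Agent.H6.SB.LargeOrderCounterexample
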